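import Pool.Agent.X164.RD.Rel
import Pool.Agent.X164.RD.Split
set_option autoImplicit false
set_option exponentiation.threshold 100000

/-! From the integers to `ℤ^r`. -/

namespace Pool.Agent.X164.RD

open Finset
open scoped Pointwise
open Pool.Agent.Y806.DF Pool.Agent.X164.MG

/-- a linear map with given values on a linearly independent family -/
theorem exists_lin {d r k : ℕ} (v : Fin k → (Fin d → ℝ)) (hv : LinearIndependent ℝ v)
    (w : Fin k → (Fin r → ℝ)) : ∃ G : (Fin d → ℝ) →ₗ[ℝ] (Fin r → ℝ), ∀ i, G (v i) = w i := by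
  let b := Module.Basis.span hv
  obtain ⟨G, hG⟩ := LinearMap.exists_extend (b.constr ℝ w)
  refine ⟨G, fun i => ?_⟩
  have h1 : ((b i : Submodule.span ℝ (Set.range v)) : Fin d → ℝ) = v i := by
    rw [Module.Basis.span_apply]
  have h2 := LinearMap.congr_fun hG (b i)
  rw [LinearMap.comp_apply, Submodule.subtype_apply, h1, Module.Basis.constr_basis] at h2
  exact h2

/-- a lattice basis for the span of a finite set of integer points -/
theorem exists_lattice {d : ℕ} (Y : Finset (Fin d → ℤ)) :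
    ∃ (k : ℕ) (ι : (Fin k → ℤ) →+ (Fin d → ℤ)), Function.Injective ι ∧
      (∀ y ∈ Y, ∃ c, ι c = y) ∧ ∀ c, ι c ∈ Submodule.span ℤ (Y : Set (Fin d → ℤ)) := by
  let Λ := Submodule.span ℤ (Y : Set (Fin d → ℤ))
  let b := Module.finBasis ℤ Λ
  let e := b.equivFun
  let φ : (Fin (Module.finrank ℤ Λ) → ℤ) →+ (Fin d → ℤ) :=
    (Λ.subtype.comp (e.symm : (Fin (Module.finrank ℤ Λ) → ℤ) →ₗ[ℤ] Λ)).toAddMonoidHom
  refine ⟨Module.finrank ℤ Λ, φ, ?_, ?_, ?_⟩
  · intro x y hxy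
    exact e.symm.injective (Subtype.ext hxy)
  · intro y hy
    have hy' : y ∈ Λ := Submodule.subset_span (Finset.mem_coe.2 hy)
    refine ⟨e ⟨y, hy'⟩, ?_⟩
    change ((e.symm (e ⟨y, hy'⟩) : Λ) : Fin d → ℤ) = y
    rw [LinearEquiv.symm_apply_apply]
  · intro c
    exact (e.symm c).2

theorem int_data {C : ℝ} (hC : ∀ (K : ℝ) (A : Finset ℤ), A.Nonempty →
    ((A + A).card : ℝ) ≤ K * A.card → Concl C K A) :
    ∃ N : ℕ, 1 ≤ N ∧ ∀ (r : ℕ) (K : ℝ) (A : Finset (Fin r → ℤ)), A.Nonempty →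
      ((A + A).card : ℝ) ≤ K * A.card →
      ∃ (d : ℕ) (X : Finset (Fin d → ℤ)) (ψ : (Fin d → ℤ) →+ (Fin r → ℤ))
        (H : AddSubgroup (Fin r → ℤ)) (g : Fin r → ℤ), Data (N * K ^ N) A X ψ H g := by
  classical
  obtain ⟨n, hn1, hn, hCK⟩ := nat_const C
  refine ⟨n * 4 ^ n + 3 * n, by
    have := Nat.mul_le_mul hn1 (Nat.one_le_pow n 4 (by norm_num))
    omega, ?_⟩
  intro r K A hA hK
  have hK1 := one_le hA hK
  have hK0 : 0 < K := by linarith
  have hApos : (0 : ℝ) < A.card := by exact_mod_cast hA.card_pos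
  obtain ⟨R, hR⟩ : ∃ R : ℕ, ∀ a ∈ A, ∀ i, |a i| ≤ R := by
    refine ⟨∑ a ∈ A, ∑ i, (a i).natAbs, fun a ha i => ?_⟩
    rw [Int.abs_eq_natAbs]
    have h1 : (a i).natAbs ≤ ∑ i, (a i).natAbs :=
      Finset.single_le_sum (f := fun i => (a i).natAbs) (fun _ _ => Nat.zero_le _)
        (Finset.mem_univ i)
    have h2 : ∑ i, (a i).natAbs ≤ ∑ a ∈ A, ∑ i, (a i).natAbs :=
      Finset.single_le_sum (f := fun a : Fin r → ℤ => ∑ i, (a i).natAbs)
        (fun _ _ => Nat.zero_le _) ha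
    exact_mod_cast h1.trans h2
  obtain ⟨Dm, hDm⟩ : ∃ Dm : ℕ, (n : ℝ) * Real.log (2 * K) ≤ Dm := ⟨_, Nat.le_ceil _⟩
  obtain ⟨a₂, ha₂⟩ : ∃ a₂ : ℕ, a₂ = 4 ^ Dm * A.card := ⟨_, rfl⟩
  obtain ⟨J, hJ⟩ : ∃ J : ℕ, J = (Dm + 1) ^ Dm * (a₂ + 1) := ⟨_, rfl⟩
  obtain ⟨M, hM⟩ : ∃ M : ℕ, M = (J + Dm * J) * (2 * R) := ⟨_, rfl⟩
  obtain ⟨L, hL⟩ : ∃ L : ℕ, L = 4 * R + M + 1 := ⟨_, rfl⟩
  set φ : (Fin r → ℤ) →+ ℤ := lin (fun i => (L : ℤ) ^ (i : ℕ)) with hφ
  have hφ0 : ∀ x : Fin r → ℤ, (∀ i, |x i| ≤ ((4 * R + M : ℕ) : ℤ)) → φ x = 0 → x = 0 := by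
    intro x hx h0
    exact digits (L := L) (M := 4 * R + M) (by omega) x hx h0
  have hsub2 : ∀ a ∈ A, ∀ b ∈ A, ∀ i, |(a - b) i| ≤ ((2 * R : ℕ) : ℤ) := by
    intro a ha b hb i
    have h1 := hR a ha i
    have h2 := hR b hb i
    rw [Pi.sub_apply]
    have := abs_sub (a i) (b i)
    push_cast
    linarith
  have hφA : Set.InjOn φ (A : Set (Fin r → ℤ)) := by
    intro a ha b hb h
    have h1 := hφ0 (a - b) (fun i => (hsub2 a ha b hb i).trans (by push_cast; omega))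
      (by rw [map_sub, h, sub_self])
    exact sub_eq_zero.1 h1
  have hc1 : (A.image φ).card = A.card := Finset.card_image_of_injOn hφA
  have hc2 : (A.image φ + A.image φ).card ≤ (A + A).card := by
    rw [← Finset.image_add φ]
    exact Finset.card_image_le
  obtain ⟨d, B, ψ, H, T, hd, hB, hH, hvol, hT, hcov⟩ := hC K (A.image φ) (hA.image _) (by
    rw [hc1]
    exact (by exact_mod_cast hc2 : ((A.image φ + A.image φ).card : ℝ) ≤ (A + A).card).trans hK)
  rw [hc1] at hvol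
  have hH0 : ∀ h ∈ H, h = 0 := by
    intro h hh
    have h1 : Nat.card H • (⟨h, hh⟩ : H) = 0 := card_nsmul_eq_zero'
    have h2 : Nat.card H • h = 0 := congrArg Subtype.val h1
    rw [nsmul_eq_mul] at h2
    rcases mul_eq_zero.1 h2 with h3 | h3
    · exact absurd (by exact_mod_cast h3) (Nat.card_pos (α := H)).ne'
    · exact h3
  have hlatA : (lat B).ncard ≤ A.card := by
    refine le_trans ?_ hvol
    exact Nat.le_mul_of_pos_right _ Nat.card_pos
  have hsym : Sym B := ⟨hB.1, hB.2.1, hB.2.2.2, hB.2.2.1.mono interior_subset⟩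
  have hlatfin : (lat B).Finite := lat_finite hB.2.1.isBounded
  have hnum1 : num B 1 = (lat B).ncard := by rw [num, one_smul]
  have hnum2 : num B 2 ≤ 4 ^ d * A.card := by
    have h3 := num_double hsym (t := 1) (by norm_num)
    rw [mul_one, hnum1] at h3
    exact h3.trans (Nat.mul_le_mul_left _ hlatA)
  have hdDm : d ≤ Dm := by
    have hlog0 : 0 ≤ Real.log (2 * K) := Real.log_nonneg (by linarith)
    have : (d : ℝ) ≤ Dm := (hd.trans (mul_le_mul_of_nonneg_right hn hlog0)).trans hDm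
    exact_mod_cast this
  -- the popular translate
  obtain ⟨t, ht, ht2⟩ := pigeon T A A hA (fun t a => ∃ x ∈ lat B, φ a = t + ψ x) subset_rfl (by
    intro a ha
    obtain ⟨t, ht, x, hx, h, hh, e⟩ := hcov (φ a) (Finset.mem_image_of_mem _ ha)
    refine ⟨t, ht, x, hx, ?_⟩
    rw [e, hH0 h hh, add_zero])
  set A' := A.filter (fun a => ∃ x ∈ lat B, φ a = t + ψ x) with hA'
  have hA'A : ∀ a ∈ A', a ∈ A := fun a ha => (Finset.mem_filter.1 ha).1
  have hA'pos : 0 < A'.card := by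
    by_contra hcon
    have h0 : A'.card = 0 := by omega
    rw [h0, mul_zero] at ht2
    have := hA.card_pos
    omega
  obtain ⟨a₀, ha₀⟩ := Finset.card_pos.1 hA'pos
  have hx : ∀ a ∈ A', ∃ x, x ∈ lat B ∧ φ a = t + ψ x := fun a ha => (Finset.mem_filter.1 ha).2
  choose! ξ hξ1 hξ2 using hx
  have hξinj : Set.InjOn ξ (A' : Set (Fin r → ℤ)) := by
    intro a ha b hb h
    refine hφA (Finset.mem_coe.2 (hA'A a ha)) (Finset.mem_coe.2 (hA'A b hb)) ?_
    rw [hξ2 a ha, hξ2 b hb, h]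
  set X := A'.image ξ with hX
  have hXcard : X.card = A'.card := Finset.card_image_of_injOn hξinj
  have hXlat : ∀ x ∈ X, x ∈ lat ((1 : ℝ) • B) := by
    intro x hx
    obtain ⟨a, ha, rfl⟩ := Finset.mem_image.1 hx
    rw [one_smul]
    exact hξ1 a ha
  set Y := X - X with hY
  have hYd : ∀ y ∈ Y, ∃ a b, a ∈ A' ∧ b ∈ A' ∧ y = ξ a - ξ b := by
    intro y hy
    obtain ⟨x, hx, x', hx', rfl⟩ := Finset.mem_sub.1 hy
    obtain ⟨a, ha, rfl⟩ := Finset.mem_image.1 hx
    obtain ⟨b, hb, rfl⟩ := Finset.mem_image.1 hx'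
    exact ⟨a, b, ha, hb, rfl⟩
  have hdY : ∀ a ∈ A', ∀ b ∈ A', ξ a - ξ b ∈ Y := fun a ha b hb =>
    Finset.sub_mem_sub (Finset.mem_image_of_mem _ ha) (Finset.mem_image_of_mem _ hb)
  choose! α β hα hβ hαβ using hYd
  set γ : (Fin d → ℤ) → (Fin r → ℤ) := fun y => α y - β y with hγ
  have hφγ : ∀ y ∈ Y, φ (γ y) = ψ y := by
    intro y hy
    conv_rhs => rw [hαβ y hy]
    rw [hγ]
    simp only
    rw [map_sub, map_sub, hξ2 _ (hα y hy), hξ2 _ (hβ y hy)]
    abel
  have hγR : ∀ y ∈ Y, ∀ i, |γ y i| ≤ ((2 * R : ℕ) : ℤ) := fun y hy i =>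
    hsub2 _ (hA'A _ (hα y hy)) _ (hA'A _ (hβ y hy)) i
  have hγξ : ∀ a ∈ A', ∀ b ∈ A', γ (ξ a - ξ b) = a - b := by
    intro a ha b hb
    have h1 := hφ0 (γ (ξ a - ξ b) - (a - b)) (fun i => by
      have e1 := hγR _ (hdY a ha b hb) i
      have e2 := hsub2 a (hA'A a ha) b (hA'A b hb) i
      have e3 := abs_sub (γ (ξ a - ξ b) i) ((a - b) i)
      rw [Pi.sub_apply]
      push_cast at e1 e2 ⊢
      have : (0 : ℤ) ≤ M := Int.natCast_nonneg _
      linarith) (by
      rw [map_sub, hφγ _ (hdY a ha b hb), map_sub, map_sub, hξ2 a ha, hξ2 b hb]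
      abel)
    exact sub_eq_zero.1 h1
  -- relations
  have hYs : ∀ y ∈ Y, -y ∈ Y := by
    intro y hy
    rw [hαβ y hy, neg_sub]
    exact hdY _ (hβ y hy) _ (hα y hy)
  have hY0 : (0 : Fin d → ℤ) ∈ Y := by
    have := hdY a₀ ha₀ a₀ ha₀
    rwa [sub_self] at this
  have hhullY : (lat (convexHull ℝ (re '' (Y : Set (Fin d → ℤ))))).ncard ≤ a₂ := by
    have h1 : lat (convexHull ℝ (re '' (Y : Set (Fin d → ℤ)))) ⊆ lat ((2 : ℝ) • B) := by
      refine lat_mono (convexHull_min ?_ (hsym.smul 2).conv)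
      rintro _ ⟨y, hy, rfl⟩
      have hy' := Finset.mem_coe.1 hy
      rw [hαβ y hy']
      have h2 := hsym.sub (by norm_num) (by norm_num)
        (hXlat _ (Finset.mem_image_of_mem _ (hα y hy')))
        (hXlat _ (Finset.mem_image_of_mem _ (hβ y hy')))
      norm_num at h2
      exact h2
    calc _ ≤ num B 2 := Set.ncard_le_ncard h1 (hsym.finite 2)
      _ ≤ 4 ^ d * A.card := hnum2
      _ ≤ a₂ := by
        rw [ha₂]
        exact Nat.mul_le_mul_right _ (Nat.pow_le_pow_right (by norm_num) hdDm)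
  obtain ⟨k, y, hkd, hyY, hli, hrel⟩ := rel Y hYs hY0 hhullY
  have hrelγ : ∀ z ∈ Y, ∃ (D : ℕ) (m : Fin k → ℤ), 1 ≤ D ∧ (D : ℤ) • z = ∑ i, m i • y i ∧
      (D : ℤ) • γ z = ∑ i, m i • γ (y i) := by
    intro z hz
    obtain ⟨D, m, hD1, hDJ, hmD, hrl⟩ := hrel z hz
    refine ⟨D, m, hD1, hrl, ?_⟩
    have hDJ' : D ≤ J := by
      refine hDJ.trans ?_
      rw [hJ]
      refine Nat.mul_le_mul_right _ ?_
      calc (d + 1) ^ d ≤ (Dm + 1) ^ d := Nat.pow_le_pow_left (by omega) _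
        _ ≤ (Dm + 1) ^ Dm := Nat.pow_le_pow_right (by omega) hdDm
    have h1 := hφ0 ((D : ℤ) • γ z - ∑ i, m i • γ (y i)) (fun j => by
      have e1 : |((D : ℤ) • γ z) j| ≤ (J : ℤ) * (2 * R : ℕ) := by
        rw [Pi.smul_apply, smul_eq_mul, abs_mul, Nat.abs_cast]
        exact mul_le_mul (by exact_mod_cast hDJ') (hγR z hz j) (abs_nonneg _)
          (Int.natCast_nonneg _)
      have e2 : |(∑ i, m i • γ (y i)) j| ≤ (Dm * J : ℕ) * (2 * R : ℕ) := by
        rw [Finset.sum_apply]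
        refine (Finset.abs_sum_le_sum_abs _ _).trans ?_
        have e3 : ∀ i ∈ (Finset.univ : Finset (Fin k)), |(m i • γ (y i)) j| ≤
            (J : ℤ) * (2 * R : ℕ) := by
          intro i _
          rw [Pi.smul_apply, smul_eq_mul, abs_mul]
          exact mul_le_mul ((hmD i).trans (by exact_mod_cast hDJ')) (hγR _ (hyY i) j)
            (abs_nonneg _) (Int.natCast_nonneg _)
        refine (Finset.sum_le_card_nsmul _ _ _ e3).trans ?_
        rw [Finset.card_univ, Fintype.card_fin, nsmul_eq_mul]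
        have e4 : (k : ℤ) ≤ Dm := by exact_mod_cast hkd.trans hdDm
        calc (k : ℤ) * ((J : ℤ) * (2 * R : ℕ)) ≤ Dm * ((J : ℤ) * (2 * R : ℕ)) :=
              mul_le_mul_of_nonneg_right e4 (by positivity)
          _ = _ := by push_cast; ring
      have e5 := abs_sub (((D : ℤ) • γ z) j) ((∑ i, m i • γ (y i)) j)
      rw [Pi.sub_apply]
      have e6 : ((4 * R + M : ℕ) : ℤ) = 4 * R + (J : ℤ) * (2 * R : ℕ) +
          (Dm * J : ℕ) * (2 * R : ℕ) := by
        rw [hM]; push_cast; ring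
      rw [e6]
      have e7 : (0 : ℤ) ≤ 4 * R := by positivity
      linarith) (by
      rw [map_sub, map_zsmul, hφγ z hz, map_sum]
      have e1 : ∑ i, φ (m i • γ (y i)) = ∑ i, m i • ψ (y i) :=
        Finset.sum_congr rfl fun i _ => by rw [map_zsmul, hφγ _ (hyY i)]
      have e2 : ∑ i, m i • ψ (y i) = ψ (∑ i, m i • y i) := by
        rw [map_sum]
        exact Finset.sum_congr rfl fun i _ => (map_zsmul _ _ _).symm
      rw [e1, e2, ← hrl, map_zsmul, sub_self])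
    exact sub_eq_zero.1 h1
  -- the linear map
  obtain ⟨G, hG⟩ := exists_lin (fun i => re (y i)) hli (fun i => re (γ (y i)))
  have hGY : ∀ z ∈ Y, G (re z) = re (γ z) := by
    intro z hz
    obtain ⟨D, m, hD1, hr1, hr2⟩ := hrelγ z hz
    have h1 : (((D : ℤ) : ℝ)) • G (re z) = (((D : ℤ) : ℝ)) • re (γ z) := by
      rw [← map_smul, ← re_zsmul, ← re_zsmul, hr1, hr2, re_sum, re_sum, map_sum]
      refine Finset.sum_congr rfl fun i _ => ?_
      rw [re_zsmul, re_zsmul, map_smul, hG]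
    have h2 : (((D : ℤ) : ℝ)) ≠ 0 := by
      have : (0 : ℝ) < D := by exact_mod_cast hD1
      push_cast
      exact this.ne'
    exact smul_right_injective _ h2 h1
  -- the lattice
  obtain ⟨k', ι, hι, hιY, hιs⟩ := exists_lattice Y
  have hint : ∀ z ∈ Submodule.span ℤ (Y : Set (Fin d → ℤ)), ∃ w : Fin r → ℤ, G (re z) = re w := by
    intro z hz
    induction hz using Submodule.span_induction with
    | mem z hz => exact ⟨_, hGY z (Finset.mem_coe.1 hz)⟩
    | zero =>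
      refine ⟨0, ?_⟩
      have h1 : re (0 : Fin d → ℤ) = 0 := by funext i; simp [re]
      have h2 : re (0 : Fin r → ℤ) = 0 := by funext i; simp [re]
      rw [h1, h2, map_zero]
    | add z z' _ _ ih ih' =>
      obtain ⟨w, hw⟩ := ih
      obtain ⟨w', hw'⟩ := ih'
      exact ⟨w + w', by rw [re_add, re_add, map_add, hw, hw']⟩
    | smul c z _ ih =>
      obtain ⟨w, hw⟩ := ih
      exact ⟨c • w, by rw [re_zsmul, re_zsmul, map_smul, hw]⟩
  choose w hw using fun j : Fin k' => hint _ (hιs (Pi.single j 1))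
  set ψ' : (Fin k' → ℤ) →+ (Fin r → ℤ) := lin w with hψ'
  have hψ're : ∀ c, re (ψ' c) = G (re (ι c)) := by
    intro c
    have e1 : ψ' c = ∑ j, c j • w j := rfl
    rw [e1, hom_eq_lin ι c, re_sum, re_sum, map_sum]
    refine Finset.sum_congr rfl fun j _ => ?_
    rw [re_zsmul, re_zsmul, map_smul, hw]
  -- the new set of integer points
  have hfinX₀ : ((fun c => ξ a₀ + ι c) ⁻¹' (X : Set (Fin d → ℤ))).Finite :=
    X.finite_toSet.preimage (fun x _ y _ h => hι (add_left_cancel h))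
  set X₀ := hfinX₀.toFinset with hX₀
  have hX₀mem : ∀ c, c ∈ X₀ ↔ ξ a₀ + ι c ∈ X := by
    intro c
    rw [hX₀, Set.Finite.mem_toFinset]
    exact Iff.rfl
  have hlift : ∀ a ∈ A', ∃ c ∈ X₀, ψ' c = a - a₀ ∧ ι c = ξ a - ξ a₀ := by
    intro a ha
    obtain ⟨c, hc⟩ := hιY _ (hdY a ha a₀ ha₀)
    refine ⟨c, ?_, ?_, hc⟩
    · rw [hX₀mem, hc, add_sub_cancel]
      exact Finset.mem_image_of_mem _ ha
    · apply re_inj
      rw [hψ're, hc, hGY _ (hdY a ha a₀ ha₀), hγξ a ha a₀ ha₀]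
  have hX₀card1 : A'.card ≤ X₀.card := by
    choose! c hc1 hc2 hc3 using hlift
    refine Finset.card_le_card_of_injOn c (fun a ha => hc1 a ha) ?_
    intro a ha b hb h
    have := hc2 a ha
    rw [h, hc2 b hb] at this
    exact (sub_left_injective this).symm
  have hX₀card2 : X₀.card ≤ A'.card := by
    rw [← hXcard]
    refine Finset.card_le_card_of_injOn (fun c => ξ a₀ + ι c) (fun c hc => (hX₀mem c).1 hc) ?_
    intro c _ c' _ h
    exact hι (add_left_cancel h)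
  have hcardX₀ : X₀.card = A'.card := le_antisymm hX₀card2 hX₀card1
  have hbig : (A.card : ℝ) ≤ T.card * X₀.card := by
    rw [hcardX₀]
    exact_mod_cast ht2
  -- numbers
  have hdd : (4 : ℝ) ^ d ≤ (2 * K) ^ (2 * n) := by
    have hlog0 : 0 ≤ Real.log (2 * K) := Real.log_nonneg (by linarith)
    have e1 : (d : ℝ) ≤ n * Real.log (2 * K) := hd.trans (mul_le_mul_of_nonneg_right hn hlog0)
    have e2 : Real.log 4 ≤ 2 := by
      rw [show (4 : ℝ) = 2 ^ 2 by norm_num, Real.log_pow]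
      have := Real.log_two_lt_d9
      push_cast
      linarith
    have e3 : Real.log ((4 : ℝ) ^ d) ≤ Real.log ((2 * K) ^ (2 * n)) := by
      rw [Real.log_pow, Real.log_pow]
      calc (d : ℝ) * Real.log 4 ≤ d * 2 := mul_le_mul_of_nonneg_left e2 (Nat.cast_nonneg _)
        _ ≤ (n * Real.log (2 * K)) * 2 := mul_le_mul_of_nonneg_right e1 (by norm_num)
        _ = ((2 * n : ℕ) : ℝ) * Real.log (2 * K) := by push_cast; ring
    exact (Real.log_le_log_iff (by positivity) (by positivity)).1 e3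
  have hT' : (T.card : ℝ) ≤ n * K ^ n := hT.trans (hCK K hK1)
  obtain ⟨N, hN⟩ : ∃ N : ℕ, N = n * 4 ^ n + 3 * n := ⟨_, rfl⟩
  rw [← hN]
  have hbase : (4 : ℝ) ^ d * T.card ≤ N * K ^ N := by
    calc (4 : ℝ) ^ d * T.card ≤ (2 * K) ^ (2 * n) * (n * K ^ n) :=
          mul_le_mul hdd hT' (Nat.cast_nonneg _) (by positivity)
      _ = (n * 4 ^ n : ℕ) * K ^ (3 * n) := by
          rw [mul_pow, pow_mul 2 2 n]
          push_cast
          ring
      _ ≤ N * K ^ N := by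
          refine mul_le_mul ?_ (pow_le_pow_right₀ hK1 (by omega)) (by positivity)
            (Nat.cast_nonneg _)
          exact_mod_cast (by omega : n * 4 ^ n ≤ N)
  have hTpos : (1 : ℝ) ≤ T.card := by exact_mod_cast Finset.card_pos.2 ⟨t, ht⟩
  have h4d : (1 : ℝ) ≤ (4 : ℝ) ^ d := one_le_pow₀ (by norm_num)
  have hTbase : (T.card : ℝ) ≤ N * K ^ N := by
    refine le_trans ?_ hbase
    calc (T.card : ℝ) = 1 * T.card := (one_mul _).symm
      _ ≤ 4 ^ d * T.card := mul_le_mul_of_nonneg_right h4d (Nat.cast_nonneg _)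
  refine ⟨k', X₀, ψ', ⊥, a₀, ⟨?_, inferInstance, ?_, ?_, ?_, ?_⟩⟩
  · obtain ⟨c, hc, -⟩ := hlift a₀ ha₀
    exact ⟨c, hc⟩
  · have h1 : (X₀ + X₀).card ≤ (X + X).card := by
      refine Finset.card_le_card_of_injOn (fun v => (ξ a₀ + ξ a₀) + ι v) ?_ ?_
      · intro v hv
        obtain ⟨a, ha, b, hb, rfl⟩ := Finset.mem_add.1 (Finset.mem_coe.1 hv)
        have e : (ξ a₀ + ξ a₀) + ι (a + b) = (ξ a₀ + ι a) + (ξ a₀ + ι b) := by
          rw [map_add]; abel
        rw [Finset.mem_coe]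
        change (ξ a₀ + ξ a₀) + ι (a + b) ∈ X + X
        rw [e]
        exact Finset.add_mem_add ((hX₀mem a).1 ha) ((hX₀mem b).1 hb)
      · intro v _ v' _ h
        exact hι (add_left_cancel h)
    have h2 : (X + X).card ≤ num B 2 := by
      rw [num, Set.ncard_eq_toFinset_card _ (hsym.finite 2)]
      refine Finset.card_le_card ?_
      intro x hx
      obtain ⟨a, ha, b, hb, rfl⟩ := Finset.mem_add.1 hx
      rw [Set.Finite.mem_toFinset]
      have h3 := hsym.add (by norm_num) (by norm_num) (hXlat a ha) (hXlat b hb)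
      norm_num at h3
      exact h3
    calc ((X₀ + X₀).card : ℝ) ≤ ((4 ^ d * A.card : ℕ) : ℝ) := by
          exact_mod_cast (h1.trans h2).trans hnum2
      _ = 4 ^ d * A.card := by push_cast; ring
      _ ≤ 4 ^ d * (T.card * X₀.card) := mul_le_mul_of_nonneg_left hbig (by positivity)
      _ = (4 ^ d * T.card) * X₀.card := by ring
      _ ≤ _ := mul_le_mul_of_nonneg_right hbase (Nat.cast_nonneg _)
  · have h1 : (hull X₀).ncard ≤ (hull X).ncard :=
      hull_map ι hι (ξ a₀) X X₀ (fun c hc => (hX₀mem c).1 hc)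
    have h2 : hull X ⊆ lat B := by
      intro v hv
      have h3 : convexHull ℝ (re '' (X : Set (Fin d → ℤ))) ⊆ B := by
        refine convexHull_min ?_ hsym.conv
        rintro _ ⟨x, hx, rfl⟩
        have := hXlat x (Finset.mem_coe.1 hx)
        rw [one_smul] at this
        exact this
      exact h3 hv
    calc ((hull X₀).ncard : ℝ) ≤ A.card := by
          exact_mod_cast (h1.trans (Set.ncard_le_ncard h2 hlatfin)).trans hlatA
      _ ≤ T.card * X₀.card := hbig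
      _ ≤ _ := mul_le_mul_of_nonneg_right hTbase (Nat.cast_nonneg _)
  · have h1 : Nat.card (⊥ : AddSubgroup (Fin r → ℤ)) = 1 := by simp
    rw [h1, Nat.cast_one, mul_one, hcardX₀]
    have h2 : (A'.card : ℝ) ≤ A.card := by exact_mod_cast Finset.card_filter_le _ _
    calc (A'.card : ℝ) ≤ 1 * A.card := by rw [one_mul]; exact h2
      _ ≤ _ := mul_le_mul_of_nonneg_right (hTpos.trans hTbase) hApos.le
  · have hsub : (A' : Set (Fin r → ℤ)) ⊆ {a | a ∈ A ∧ ∃ x ∈ X₀, ∃ h ∈ (⊥ : AddSubgroup (Fin r → ℤ)),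
        a = a₀ + ψ' x + h} := by
      intro a ha
      obtain ⟨c, hc, hc2, -⟩ := hlift a (Finset.mem_coe.1 ha)
      exact ⟨hA'A a ha, c, hc, 0, AddSubgroup.zero_mem _, by rw [hc2]; abel⟩
    have hfinS : {a | a ∈ A ∧ ∃ x ∈ X₀, ∃ h ∈ (⊥ : AddSubgroup (Fin r → ℤ)),
        a = a₀ + ψ' x + h}.Finite := (Finset.finite_toSet A).subset (fun a ha => ha.1)
    have h3 := Set.ncard_le_ncard hsub hfinS
    rw [Set.ncard_coe_finset] at h3
    calc (A.card : ℝ) ≤ T.card * A'.card := by exact_mod_cast ht2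
      _ ≤ (N * K ^ N) * {a | a ∈ A ∧ ∃ x ∈ X₀, ∃ h ∈ (⊥ : AddSubgroup (Fin r → ℤ)),
        a = a₀ + ψ' x + h}.ncard :=
          mul_le_mul hTbase (by exact_mod_cast h3) (Nat.cast_nonneg _) (by positivity)

/-- **Q1 for the integers implies Q1 for groups with bounded odd torsion.** -/
theorem int_imp_odd {C : ℝ} (hC : ∀ (K : ℝ) (A : Finset ℤ), A.Nonempty →
    ((A + A).card : ℝ) ≤ K * A.card → Concl C K A) {m : ℕ} (hm : Odd m) :
    ∃ C' : ℝ, ∀ {G : Type*} [AddCommGroup G] [DecidableEq G],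
      (∀ (k : ℕ) (x : G), Odd k → k • x = 0 → m • x = 0) → ∀ (K : ℝ) (A : Finset G), A.Nonempty →
      ((A + A).card : ℝ) ≤ K * A.card → Concl C' K A := by
  obtain ⟨N, hN1, hN⟩ := int_data hC
  refine free_imp_odd (C := ((5000 * N ^ 5000 : ℕ) : ℝ)) ?_ hm
  intro r K A hA hK
  obtain ⟨d, X, ψ, H, g, hD⟩ := hN r K A hA hK
  exact concl_of_data hA hK hN1 hD

end Pool.Agent.X164.RD
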