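import Pool.Agent.X164.RD.Rank
import Pool.Agent.H137R2.Weak.Final
set_option autoImplicit false
set_option exponentiation.threshold 100000

/-! Groups without elements of odd order. -/

namespace Pool.Agent.X164.RD

open Finset
open scoped Pointwise
open Pool.Agent.Y806.DF Pool.Agent.X164.MG

theorem wm' {Γ : Type*} [AddCommGroup Γ] [d : DecidableEq Γ] (K : ℝ) (A : Finset Γ)
    (hA : A.Nonempty) (hK : ((A + A).card : ℝ) ≤ K * (A.card : ℝ)) :
    ∃ (P : AddSubgroup Γ) (S T : Finset Γ), Finite P ∧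
      (((A : Set Γ) + (P : Set Γ)).ncard : ℝ) ≤ 2 * K ^ 370 * A.card ∧
      (S.card : ℝ) ≤ 480 * Real.log K + 1 ∧ (T.card : ℝ) ≤ K ^ 185 ∧
      ∀ a ∈ A, ∃ t ∈ T, ∃ o : Γ, (∃ m : ℕ, Odd m ∧ m • o = 0) ∧
        a - t - o ∈ P ⊔ AddSubgroup.closure (S : Set Γ) := by
  have hd : d = (fun a b => Classical.propDecidable (a = b)) := Subsingleton.elim _ _
  subst hd
  obtain ⟨P, S, T, h1, -, h6, h2, h3, h4, h5⟩ := H137.Weak.weak_marton hA hK
  exact ⟨P, S, T, h1, h6, h2, h4, h5⟩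

theorem two_pow_le {K : ℝ} (hK : 1 ≤ K) {s : ℕ} (hs : (s : ℝ) ≤ 480 * Real.log K + 1) :
    (2 : ℝ) ^ s ≤ 2 * K ^ 333 := by
  have hK0 : 0 < K := by linarith
  have hl := Real.log_two_lt_d9
  have hl0 := Real.log_two_gt_d9
  have hlK : 0 ≤ Real.log K := Real.log_nonneg hK
  have h2 : Real.log ((2 : ℝ) ^ s) ≤ Real.log (2 * K ^ 333) := by
    rw [Real.log_pow, Real.log_mul (by norm_num) (by positivity), Real.log_pow]
    calc (s : ℝ) * Real.log 2 ≤ (480 * Real.log K + 1) * Real.log 2 :=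
          mul_le_mul_of_nonneg_right hs (by linarith)
      _ = Real.log 2 + 480 * Real.log 2 * Real.log K := by ring
      _ ≤ Real.log 2 + 333 * Real.log K := by
        have : 480 * Real.log 2 ≤ 333 := by linarith
        have := mul_le_mul_of_nonneg_right this hlK
        linarith
      _ = Real.log 2 + ((333 : ℕ) : ℝ) * Real.log K := by norm_num
  exact (Real.log_le_log_iff (by positivity) (by positivity)).1 h2

/-- homomorphisms from `ℤ^s` with given values -/
noncomputable def lin {G : Type*} [AddCommGroup G] {s : ℕ} (v : Fin s → G) : (Fin s → ℤ) →+ G where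
  toFun x := ∑ i, x i • v i
  map_zero' := by simp
  map_add' x y := by simp only [Pi.add_apply, add_smul, Finset.sum_add_distrib]

theorem lin_single {G : Type*} [AddCommGroup G] {s : ℕ} (v : Fin s → G) (i : Fin s) :
    lin v (Pi.single i 1) = v i := by
  change ∑ j, (Pi.single i 1 : Fin s → ℤ) j • v j = v i
  rw [Finset.sum_eq_single i]
  · rw [Pi.single_eq_same, one_smul]
  · intro j _ hj
    rw [Pi.single_eq_of_ne hj, zero_smul]
  · intro h
    exact absurd (Finset.mem_univ _) h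

theorem hom_eq_lin {G : Type*} [AddCommGroup G] {s : ℕ} (φ : (Fin s → ℤ) →+ G) (x : Fin s → ℤ) :
    φ x = ∑ i, x i • φ (Pi.single i 1) := by
  have h1 : x = ∑ j, x j • (Pi.single j 1 : Fin s → ℤ) := by
    funext k
    rw [Finset.sum_apply, Finset.sum_eq_single k]
    · simp
    · intro b _ hb
      simp [Ne.symm hb]
    · simp
  conv_lhs => rw [h1]
  rw [map_sum]
  exact Finset.sum_congr rfl fun i _ => map_zsmul _ _ _

/-- lifting homomorphisms from `ℤ^s` -/
theorem lift_hom {G G' : Type*} [AddCommGroup G] [AddCommGroup G'] {s : ℕ} (q : G →+ G')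
    (hq : Function.Surjective q) (φ : (Fin s → ℤ) →+ G') :
    ∃ φ' : (Fin s → ℤ) →+ G, ∀ x, q (φ' x) = φ x := by
  choose v hv using fun i : Fin s => hq (φ (Pi.single i 1))
  refine ⟨lin v, fun x => ?_⟩
  rw [hom_eq_lin φ x]
  change q (∑ i, x i • v i) = _
  rw [map_sum]
  refine Finset.sum_congr rfl fun i _ => ?_
  rw [map_zsmul, hv]

/-- the order of the preimage of a finite subgroup -/
theorem comap_card {Φ : Type*} [AddCommGroup Φ] (P : AddSubgroup Φ) [Finite P]
    (H₁ : AddSubgroup (Φ ⧸ P)) [Finite H₁] :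
    Finite (H₁.comap (QuotientAddGroup.mk' P)) ∧
      Nat.card (H₁.comap (QuotientAddGroup.mk' P)) ≤ Nat.card H₁ * Nat.card P := by
  choose r hr using fun y : Φ ⧸ P => QuotientAddGroup.mk'_surjective P y
  let F : H₁ × P → H₁.comap (QuotientAddGroup.mk' P) := fun z => ⟨r z.1 + z.2, by
    rw [AddSubgroup.mem_comap, map_add, hr]
    have : QuotientAddGroup.mk' P (z.2 : Φ) = 0 := (QuotientAddGroup.eq_zero_iff _).2 z.2.2
    rw [this, add_zero]
    exact z.1.2⟩
  have hF : Function.Surjective F := by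
    rintro ⟨x, hx⟩
    have hx' : QuotientAddGroup.mk' P x ∈ H₁ := hx
    have h1 : x - r (QuotientAddGroup.mk' P x) ∈ P := by
      have : QuotientAddGroup.mk' P (x - r (QuotientAddGroup.mk' P x)) = 0 := by
        rw [map_sub, hr, sub_self]
      exact (QuotientAddGroup.eq_zero_iff _).1 this
    refine ⟨(⟨_, hx'⟩, ⟨_, h1⟩), Subtype.ext ?_⟩
    change r (QuotientAddGroup.mk' P x) + (x - r (QuotientAddGroup.mk' P x)) = x
    abel
  refine ⟨Finite.of_surjective F hF, ?_⟩
  rw [← Nat.card_prod]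
  exact Nat.card_le_card_of_surjective F hF

theorem no_odd {C : ℝ} (hC : ∀ (r : ℕ) (K : ℝ) (A : Finset (Fin r → ℤ)), A.Nonempty →
    ((A + A).card : ℝ) ≤ K * A.card → Concl C K A) :
    ∃ N : ℕ, 1 ≤ N ∧ ∀ {Φ : Type*} [AddCommGroup Φ] [DecidableEq Φ],
      (∀ (m : ℕ) (x : Φ), Odd m → m • x = 0 → x = 0) → ∀ (K : ℝ) (A : Finset Φ), A.Nonempty →
      ((A + A).card : ℝ) ≤ K * A.card →
      ∃ (d : ℕ) (X : Finset (Fin d → ℤ)) (ψ : (Fin d → ℤ) →+ Φ) (H : AddSubgroup Φ) (g : Φ),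
        Data (N * K ^ N) A X ψ H g := by
  classical
  obtain ⟨n, hn1, hn, hCK⟩ := nat_const C
  refine ⟨4 ^ (4 * n) + 3564 * n, by
    have := Nat.one_le_pow (4 * n) 4 (by norm_num)
    omega, ?_⟩
  intro Φ _ _ hodd K A hA hK
  have hK1 := one_le hA hK
  have hK0 : 0 < K := by linarith
  have hApos : (0 : ℝ) < A.card := by exact_mod_cast hA.card_pos
  obtain ⟨P, S, T, hPfin, hAP, hS, hT, hcov⟩ := wm' K A hA hK
  -- the popular coset
  obtain ⟨t, ht, ht2⟩ := pigeon T A A hA (fun t a => a - t ∈ P ⊔ AddSubgroup.closure (S : Set Φ))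
    subset_rfl (by
      intro a ha
      obtain ⟨t, ht, o, ⟨m, hm, hmo⟩, hmem⟩ := hcov a ha
      rw [hodd m o hm hmo, sub_zero] at hmem
      exact ⟨t, ht, hmem⟩)
  set A' := A.filter (fun a => a - t ∈ P ⊔ AddSubgroup.closure (S : Set Φ)) with hA'
  have hbig : (A.card : ℝ) ≤ K ^ 185 * A'.card := by
    calc (A.card : ℝ) ≤ T.card * A'.card := by exact_mod_cast ht2
      _ ≤ K ^ 185 * A'.card := mul_le_mul_of_nonneg_right hT (Nat.cast_nonneg _)
  have hA'ne : A'.Nonempty := by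
    rw [← Finset.card_pos]
    by_contra hcon
    have h0 : A'.card = 0 := by omega
    rw [h0, Nat.cast_zero, mul_zero] at hbig
    linarith
  have hsub : A' ⊆ A := Finset.filter_subset _ _
  -- translation
  set A₂ := A'.image (fun a => a - t) with hA₂
  have hA₂card : A₂.card = A'.card := Finset.card_image_of_injective _ sub_left_injective
  have hA₂ne : A₂.Nonempty := hA'ne.image _
  have hA₂K : ((A₂ + A₂).card : ℝ) ≤ K ^ 186 * A₂.card := by
    have h1 : (A₂ + A₂).card ≤ (A + A).card := by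
      have h2 : A₂ + A₂ ⊆ (A + A).image (fun a => a - (t + t)) := by
        intro z hz
        obtain ⟨x, hx, y, hy, rfl⟩ := Finset.mem_add.1 hz
        obtain ⟨a, ha, rfl⟩ := Finset.mem_image.1 hx
        obtain ⟨b, hb, rfl⟩ := Finset.mem_image.1 hy
        refine Finset.mem_image.2 ⟨a + b, Finset.add_mem_add (hsub ha) (hsub hb), ?_⟩
        abel
      exact (Finset.card_le_card h2).trans Finset.card_image_le
    calc ((A₂ + A₂).card : ℝ) ≤ (A + A).card := by exact_mod_cast h1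
      _ ≤ K * A.card := hK
      _ ≤ K * (K ^ 185 * A'.card) := mul_le_mul_of_nonneg_left hbig hK0.le
      _ = K ^ 186 * A₂.card := by rw [hA₂card]; ring
  -- the quotient
  set q := QuotientAddGroup.mk' P with hq
  set A₁ := A₂.image q with hA₁
  have hA₁ne : A₁.Nonempty := hA₂ne.image _
  have hA₁K : ((A₁ + A₁).card : ℝ) ≤ K ^ 558 * A₁.card := by
    have := sumset_fst q hA₂ne hA₂K
    rw [← pow_mul] at this
    exact this
  -- few generators
  set π : (Fin S.card → ℤ) →+ Φ ⧸ P := lin (fun i => q (S.equivFin.symm i : Φ)) with hπ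
  have hAπ : ∀ α ∈ A₁, ∃ x, π x = α := by
    intro α hα
    obtain ⟨z, hz, rfl⟩ := Finset.mem_image.1 hα
    obtain ⟨a, ha, rfl⟩ := Finset.mem_image.1 hz
    have h1 : P ⊔ AddSubgroup.closure (S : Set Φ) ≤ π.range.comap q := by
      refine sup_le ?_ ?_
      · intro p hp
        rw [AddSubgroup.mem_comap]
        have : q p = 0 := (QuotientAddGroup.eq_zero_iff _).2 hp
        rw [this]
        exact AddSubgroup.zero_mem _
      · rw [AddSubgroup.closure_le]
        intro x hx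
        change q x ∈ π.range
        refine ⟨Pi.single (S.equivFin ⟨x, hx⟩) 1, ?_⟩
        rw [hπ, lin_single, Equiv.symm_apply_apply]
    have h2 := h1 (Finset.mem_filter.1 ha).2
    exact h2
  obtain ⟨d, B, ψ₁, H₁, T₁, hd, hB, hH₁, hvol₁, hT₁, hcov₁⟩ :=
    rank_case hC π A₁ hA₁ne hAπ hA₁K
  set Kt : ℝ := 2 ^ S.card * K ^ 558 with hKt
  have h2s := two_pow_le hK1 hS
  have hKt1 : 1 ≤ Kt := one_le_mul_of_one_le_of_one_le (one_le_pow₀ (by norm_num))
    (one_le_pow₀ hK1)
  have hKt2 : Kt ≤ 2 * K ^ 891 := by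
    calc Kt ≤ (2 * K ^ 333) * K ^ 558 := mul_le_mul_of_nonneg_right h2s (by positivity)
      _ = 2 * K ^ 891 := by ring
  have hpK : ∀ i : ℕ, (1 : ℝ) ≤ K ^ i := fun i => one_le_pow₀ hK1
  set M : ℝ := (4 * K ^ 891) ^ (2 * n) with hM
  have hbase : 4 * K ^ 891 ≤ M := by
    calc 4 * K ^ 891 = (4 * K ^ 891) ^ 1 := (pow_one _).symm
      _ ≤ (4 * K ^ 891) ^ (2 * n) := pow_le_pow_right₀ (by linarith [hpK 891]) (by omega)
  have hM1 : 1 ≤ M := by linarith [hpK 891]
  have hdd : (4 : ℝ) ^ d ≤ M := by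
    have hlog0 : 0 ≤ Real.log (2 * Kt) := Real.log_nonneg (by linarith)
    have e1 : (d : ℝ) ≤ n * Real.log (2 * Kt) := hd.trans (mul_le_mul_of_nonneg_right hn hlog0)
    have e2 : Real.log 4 ≤ 2 := by
      rw [show (4 : ℝ) = 2 ^ 2 by norm_num, Real.log_pow]
      have := Real.log_two_lt_d9
      push_cast
      linarith
    have e3 : Real.log ((4 : ℝ) ^ d) ≤ Real.log ((2 * Kt) ^ (2 * n)) := by
      rw [Real.log_pow, Real.log_pow]
      calc (d : ℝ) * Real.log 4 ≤ d * 2 := mul_le_mul_of_nonneg_left e2 (Nat.cast_nonneg _)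
        _ ≤ (n * Real.log (2 * Kt)) * 2 := mul_le_mul_of_nonneg_right e1 (by norm_num)
        _ = ((2 * n : ℕ) : ℝ) * Real.log (2 * Kt) := by push_cast; ring
    have e4 : (4 : ℝ) ^ d ≤ (2 * Kt) ^ (2 * n) :=
      (Real.log_le_log_iff (by positivity) (by positivity)).1 e3
    exact e4.trans (pow_le_pow_left₀ (by linarith) (by linarith) _)
  have hTM : (T₁.card : ℝ) ≤ M := by
    have e1 : (n : ℝ) ≤ 2 ^ n := by exact_mod_cast (Nat.lt_two_pow_self).le
    calc (T₁.card : ℝ) ≤ C * Kt ^ C := hT₁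
      _ ≤ n * Kt ^ n := hCK Kt hKt1
      _ ≤ 2 ^ n * (2 * K ^ 891) ^ n :=
          mul_le_mul e1 (pow_le_pow_left₀ (by linarith) hKt2 _) (by positivity) (by positivity)
      _ = (4 * K ^ 891) ^ n := by rw [← mul_pow]; ring_nf
      _ ≤ (4 * K ^ 891) ^ (2 * n) := pow_le_pow_right₀ (by linarith [hpK 891]) (by omega)
  -- lifts
  have hqs : Function.Surjective q := QuotientAddGroup.mk'_surjective P
  obtain ⟨ψ, hψ⟩ := lift_hom q hqs ψ₁
  obtain ⟨hfinH, hcardH⟩ := comap_card P H₁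
  choose r hr using hqs
  -- the size of the set modulo `P`
  have hA₁P : (A₁.card : ℝ) * Nat.card P ≤ 2 * K ^ 370 * A.card := by
    refine le_trans ?_ hAP
    have h1 : ∀ α ∈ A₁, ∃ a ∈ A, q (a - t) = α := by
      intro α hα
      obtain ⟨z, hz, rfl⟩ := Finset.mem_image.1 hα
      obtain ⟨a, ha, rfl⟩ := Finset.mem_image.1 hz
      exact ⟨a, hsub ha, rfl⟩
    choose! c hc1 hc2 using h1
    have hfinAP : ((A : Set Φ) + (P : Set Φ)).Finite := (Finset.finite_toSet A).add (Set.toFinite _)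
    have h3 : Set.InjOn (fun z : (Φ ⧸ P) × Φ => c z.1 + z.2) ((A₁ : Set (Φ ⧸ P)) ×ˢ (P : Set Φ)) := by
      rintro ⟨α, p⟩ ⟨hα, hp⟩ ⟨β, p'⟩ ⟨hβ, hp'⟩ h
      simp only at hα hp hβ hp' h
      have h4 : q (c α - t) = q (c β - t) := by
        have e1 : c α - t = (c β - t) + (p' - p) := by
          have : c α = c β + p' - p := by rw [← h]; abel
          rw [this]; abel
        rw [e1, map_add]
        have : q (p' - p) = 0 := (QuotientAddGroup.eq_zero_iff _).2 (P.sub_mem hp' hp)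
        rw [this, add_zero]
      rw [hc2 α (Finset.mem_coe.1 hα), hc2 β (Finset.mem_coe.1 hβ)] at h4
      subst h4
      rw [add_right_inj] at h
      rw [h]
    have h4 := Set.ncard_le_ncard_of_injOn (t := (A : Set Φ) + (P : Set Φ))
      (fun z : (Φ ⧸ P) × Φ => c z.1 + z.2) (by
        rintro ⟨α, p⟩ ⟨hα, hp⟩
        exact Set.add_mem_add (Finset.mem_coe.2 (hc1 α (Finset.mem_coe.1 hα))) hp) h3 hfinAP
    rw [Set.ncard_prod, Set.ncard_coe_finset] at h4
    exact_mod_cast h4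
  have hvol : ((lat B).ncard : ℝ) * Nat.card (H₁.comap q) ≤ M * A.card := by
    calc ((lat B).ncard : ℝ) * Nat.card (H₁.comap q)
        ≤ (lat B).ncard * (Nat.card H₁ * Nat.card P) := by
          exact_mod_cast Nat.mul_le_mul_left _ hcardH
      _ = ((lat B).ncard * Nat.card H₁) * Nat.card P := by ring
      _ ≤ A₁.card * Nat.card P := by
          refine mul_le_mul_of_nonneg_right ?_ (Nat.cast_nonneg _)
          exact_mod_cast hvol₁
      _ ≤ 2 * K ^ 370 * A.card := hA₁P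
      _ ≤ M * A.card := by
          refine mul_le_mul_of_nonneg_right ?_ hApos.le
          have : K ^ 370 ≤ K ^ 891 := pow_le_pow_right₀ hK1 (by norm_num)
          linarith [hpK 891]
  have hcov₂ : Cov B ψ (H₁.comap q) (T₁.image (fun y => t + r y)) A' := by
    intro a ha
    obtain ⟨t₁, ht₁, x, hx, h, hh, e⟩ := hcov₁ (q (a - t))
      (Finset.mem_image_of_mem _ (Finset.mem_image_of_mem _ ha))
    refine ⟨t + r t₁, Finset.mem_image_of_mem _ ht₁, x, hx, a - t - r t₁ - ψ x, ?_, by abel⟩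
    rw [AddSubgroup.mem_comap, map_sub, map_sub, e, hr, hψ]
    have : t₁ + ψ₁ x + h - t₁ - ψ₁ x = h := by abel
    rw [this]
    exact hh
  have hT₂ : (((T₁.image (fun y => t + r y)).card : ℕ) : ℝ) ≤ M :=
    (by exact_mod_cast Finset.card_image_le : (((T₁.image (fun y => t + r y)).card : ℕ) : ℝ) ≤
      T₁.card).trans hTM
  have hbigM : (A.card : ℝ) ≤ M * A'.card := by
    refine hbig.trans (mul_le_mul_of_nonneg_right ?_ (Nat.cast_nonneg _))
    have : K ^ 185 ≤ K ^ 891 := pow_le_pow_right₀ hK1 (by norm_num)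
    linarith [hpK 891]
  obtain ⟨X, g, hD⟩ := data_of_cover hA'ne hsub hM1 hbigM hdd hB hfinH hvol hT₂ hcov₂
  refine ⟨d, X, ψ, H₁.comap q, g, hD.mono ?_⟩
  have e1 : M ^ 2 = ((4 ^ (4 * n) : ℕ) : ℝ) * K ^ (3564 * n) := by
    rw [hM, ← pow_mul, mul_pow, ← pow_mul]
    push_cast
    congr 2
    · ring
    · ring
  rw [e1]
  refine mul_le_mul ?_ (pow_le_pow_right₀ hK1 (Nat.le_add_left _ _)) (by positivity)
    (Nat.cast_nonneg _)
  exact_mod_cast Nat.le_add_right _ _

end Pool.Agent.X164.RD
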