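import Mathlib
set_option autoImplicit false

/-! Sets in groups with few generators lift to sets of integer points. -/

namespace Pool.Agent.X164.RD

open Finset
open scoped Pointwise

theorem lift {G : Type*} [AddCommGroup G] [DecidableEq G] {s : ℕ} (π : (Fin s → ℤ) →+ G)
    (A : Finset G) (hA : ∀ a ∈ A, ∃ x, π x = a) :
    ∃ A' : Finset (Fin s → ℤ), A'.image π = A ∧ A'.card = A.card ∧
      (A' + A').card ≤ 2 ^ s * (A + A).card := by
  classical
  let N : Submodule ℤ (Fin s → ℤ) := LinearMap.ker π.toIntLinearMap
  obtain ⟨n, snf⟩ := Submodule.smithNormalForm (Pi.basisFun ℤ (Fin s)) N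
  have hN : ∀ x, π x = 0 → x ∈ N := fun x h => h
  have hN' : ∀ x ∈ N, π x = 0 := fun x h => h
  have ha0 : ∀ i, snf.a i ≠ 0 := by
    intro i h
    have h1 := snf.snf i
    rw [h, zero_smul] at h1
    exact snf.bN.ne_zero i (Subtype.ext h1)
  have hn : n ≤ s := by
    have := Fintype.card_le_of_embedding snf.f
    simpa using this
  -- reduction
  have hred : ∀ y : Fin s → ℤ, ∃ y', π y' = π y ∧
      ∀ i : Fin n, 0 ≤ snf.bM.repr y' (snf.f i) ∧ snf.bM.repr y' (snf.f i) < |snf.a i| := by
    intro y
    refine ⟨y - ∑ i, (snf.bM.repr y (snf.f i) / snf.a i) • (snf.bN i : Fin s → ℤ), ?_, ?_⟩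
    · rw [map_sub, map_sum, Finset.sum_eq_zero, sub_zero]
      intro i _
      rw [map_zsmul, hN' _ (snf.bN i).2, smul_zero]
    · intro i
      have h1 : snf.bM.repr (y - ∑ j, (snf.bM.repr y (snf.f j) / snf.a j) •
          (snf.bN j : Fin s → ℤ)) (snf.f i) = snf.bM.repr y (snf.f i) % snf.a i := by
        rw [map_sub, map_sum, Finsupp.sub_apply, Finsupp.finsetSum_apply,
          Finset.sum_eq_single i]
        · rw [map_zsmul, snf.snf, map_smul, Module.Basis.repr_self, Finsupp.smul_apply,
            Finsupp.smul_apply, Finsupp.single_eq_same, Int.emod_def]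
          simp only [smul_eq_mul, mul_one]
          ring
        · intro j _ hj
          rw [map_zsmul, snf.snf, map_smul, Module.Basis.repr_self, Finsupp.smul_apply,
            Finsupp.smul_apply, Finsupp.single_eq_of_ne, smul_zero, smul_zero]
          intro h
          exact hj (snf.f.injective h).symm
        · intro h
          exact absurd (Finset.mem_univ _) h
      rw [h1]
      exact ⟨Int.emod_nonneg _ (ha0 i), Int.emod_lt_abs _ (ha0 i)⟩
  have hsec : ∀ a ∈ A, ∃ y', π y' = a ∧
      ∀ i : Fin n, 0 ≤ snf.bM.repr y' (snf.f i) ∧ snf.bM.repr y' (snf.f i) < |snf.a i| := by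
    intro a ha
    obtain ⟨x, hx⟩ := hA a ha
    obtain ⟨y', h1, h2⟩ := hred x
    exact ⟨y', h1.trans hx, h2⟩
  choose! σ hσ1 hσ2 using hsec
  refine ⟨A.image σ, ?_, ?_, ?_⟩
  · rw [Finset.image_image]
    ext a
    rw [Finset.mem_image]
    constructor
    · rintro ⟨b, hb, rfl⟩
      change π (σ b) ∈ A
      rw [hσ1 b hb]
      exact hb
    · intro ha
      exact ⟨a, ha, hσ1 a ha⟩
  · refine Finset.card_image_of_injOn ?_
    intro a ha b hb h
    rw [← hσ1 a ha, ← hσ1 b hb, h]
  · -- the number of sums
    have hkey : (A.image σ + A.image σ).card ≤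
        ((Finset.univ : Finset (Fin n → Bool)) ×ˢ (A + A)).card := by
      refine Finset.card_le_card_of_injOn
        (fun w => ((fun i => decide (|snf.a i| ≤ snf.bM.repr w (snf.f i))), π w)) ?_ ?_
      · intro w hw
        obtain ⟨x, hx, y, hy, rfl⟩ := Finset.mem_add.1 (Finset.mem_coe.1 hw)
        obtain ⟨a, ha, rfl⟩ := Finset.mem_image.1 hx
        obtain ⟨b, hb, rfl⟩ := Finset.mem_image.1 hy
        rw [Finset.mem_coe, Finset.mem_product]
        refine ⟨Finset.mem_univ _, ?_⟩
        change π (σ a + σ b) ∈ A + A
        rw [map_add, hσ1 a ha, hσ1 b hb]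
        exact Finset.add_mem_add ha hb
      · intro w hw w' hw' h
        have hbd : ∀ w ∈ A.image σ + A.image σ, ∀ i : Fin n,
            0 ≤ snf.bM.repr w (snf.f i) ∧ snf.bM.repr w (snf.f i) < 2 * |snf.a i| := by
          intro w hw i
          obtain ⟨x, hx, y, hy, rfl⟩ := Finset.mem_add.1 hw
          obtain ⟨a, ha, rfl⟩ := Finset.mem_image.1 hx
          obtain ⟨b, hb, rfl⟩ := Finset.mem_image.1 hy
          have h1 := hσ2 a ha i
          have h2 := hσ2 b hb i
          rw [map_add, Finsupp.add_apply]
          constructor
          · linarith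
          · linarith
        have hb1 := hbd w (Finset.mem_coe.1 hw)
        have hb2 := hbd w' (Finset.mem_coe.1 hw')
        simp only [Prod.mk.injEq] at h
        obtain ⟨h3, h4⟩ := h
        have hmem : w - w' ∈ N := hN _ (by rw [map_sub, h4, sub_self])
        have h5 : snf.bM.repr (w - w') = 0 := by
          ext j
          rw [Finsupp.zero_apply]
          by_cases hj : j ∈ Set.range snf.f
          · obtain ⟨i, rfl⟩ := hj
            have h6 := snf.repr_apply_embedding_eq_repr_smul (m := ⟨w - w', hmem⟩) (i := i)
            rw [map_smul, Finsupp.smul_apply, smul_eq_mul] at h6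
            change snf.bM.repr (w - w') (snf.f i) = _ at h6
            set c := (snf.bN.repr ⟨w - w', hmem⟩) i
            have h7 : |snf.bM.repr (w - w') (snf.f i)| < |snf.a i| := by
              rw [map_sub, Finsupp.sub_apply, abs_lt]
              have g1 := hb1 i
              have g2 := hb2 i
              have h8 := congrFun h3 i
              simp only [decide_eq_decide] at h8
              by_cases g : |snf.a i| ≤ snf.bM.repr w (snf.f i)
              · have g' := h8.1 g
                constructor
                · linarith
                · linarith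
              · have g' : ¬ |snf.a i| ≤ snf.bM.repr w' (snf.f i) := fun hh => g (h8.2 hh)
                push Not at g g'
                constructor
                · linarith
                · linarith
            rw [h6]
            rw [h6, abs_mul] at h7
            have h9 : |c| < 1 := by
              by_contra hcon
              push Not at hcon
              have := mul_le_mul_of_nonneg_left hcon (abs_nonneg (snf.a i))
              linarith
            have h10 : c = 0 := Int.abs_lt_one_iff.1 h9
            rw [h10, mul_zero]
          · exact snf.repr_eq_zero_of_notMem_range ⟨w - w', hmem⟩ hj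
        have h11 : w - w' = 0 := by
          have := (LinearEquiv.map_eq_zero_iff snf.bM.repr).1 h5
          exact this
        exact sub_eq_zero.1 h11
    refine hkey.trans ?_
    rw [Finset.card_product, Finset.card_univ, Fintype.card_fun, Fintype.card_bool, Fintype.card_fin]
    exact Nat.mul_le_mul_right _ (Nat.pow_le_pow_right (by norm_num) hn)

end Pool.Agent.X164.RD
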