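import Pool.Agent.X164.MG.C
import Pool.Agent.X164.RD.Smith
set_option autoImplicit false
set_option exponentiation.threshold 100000

/-! Groups with few generators; groups without elements of odd order. -/

namespace Pool.Agent.X164.RD

open Finset
open scoped Pointwise
open Pool.Agent.Y806.DF Pool.Agent.X164.MG

/-- images under homomorphisms which are injective on the set -/
theorem concl_image {Γ₀ Γ : Type*} [AddCommGroup Γ₀] [AddCommGroup Γ] [DecidableEq Γ]
    (π : Γ₀ →+ Γ) {C K : ℝ} {A : Finset Γ₀} (hc : (A.image π).card = A.card) (h : Concl C K A) :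
    Concl C K (A.image π) := by
  obtain ⟨d, B, ψ, H, T, h1, h2, h3, h4, h5, h6⟩ := h
  have hfin : Finite (H.map π) :=
    Finite.of_surjective (fun x : H => (⟨π x, AddSubgroup.mem_map_of_mem π x.2⟩ : H.map π))
      (by
        rintro ⟨y, hy⟩
        obtain ⟨x, hx, rfl⟩ := AddSubgroup.mem_map.1 hy
        exact ⟨⟨x, hx⟩, rfl⟩)
  have hcard : Nat.card (H.map π) ≤ Nat.card H :=
    Nat.card_le_card_of_surjective
      (fun x : H => (⟨π x, AddSubgroup.mem_map_of_mem π x.2⟩ : H.map π)) (by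
        rintro ⟨y, hy⟩
        obtain ⟨x, hx, rfl⟩ := AddSubgroup.mem_map.1 hy
        exact ⟨⟨x, hx⟩, rfl⟩)
  refine ⟨d, B, π.comp ψ, H.map π, T.image π, h1, h2, hfin, ?_, ?_, ?_⟩
  · rw [hc]
    exact (Nat.mul_le_mul_left _ hcard).trans h4
  · have : ((T.image π).card : ℝ) ≤ T.card := by exact_mod_cast Finset.card_image_le
    exact this.trans h5
  · intro a ha
    obtain ⟨b, hb, rfl⟩ := Finset.mem_image.1 ha
    obtain ⟨t, ht, x, hx, h, hh, e⟩ := h6 b hb
    refine ⟨π t, Finset.mem_image_of_mem _ ht, x, hx, π h, AddSubgroup.mem_map.2 ⟨h, hh, rfl⟩, ?_⟩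
    rw [e, map_add, map_add]
    rfl

/-- groups with few generators -/
theorem rank_case {C : ℝ} (hC : ∀ (r : ℕ) (K : ℝ) (A : Finset (Fin r → ℤ)), A.Nonempty →
    ((A + A).card : ℝ) ≤ K * A.card → Concl C K A) {G : Type*} [AddCommGroup G] [DecidableEq G]
    {s : ℕ} (π : (Fin s → ℤ) →+ G) (A : Finset G) (hA : A.Nonempty)
    (hAπ : ∀ a ∈ A, ∃ x, π x = a) {K : ℝ} (hK : ((A + A).card : ℝ) ≤ K * A.card) :
    Concl C (2 ^ s * K) A := by
  obtain ⟨A', h1, h2, h3⟩ := lift π A hAπ
  have hne : A'.Nonempty := by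
    rw [← Finset.card_pos, h2]
    exact hA.card_pos
  have h4 : ((A' + A').card : ℝ) ≤ (2 ^ s * K) * A'.card := by
    calc ((A' + A').card : ℝ) ≤ 2 ^ s * (A + A).card := by exact_mod_cast h3
      _ ≤ 2 ^ s * (K * A.card) := mul_le_mul_of_nonneg_left hK (by positivity)
      _ = (2 ^ s * K) * A'.card := by rw [h2]; ring
  have h5 := concl_image π (by rw [h1, h2]) (hC s (2 ^ s * K) A' hne h4)
  rwa [h1] at h5

/-- a covering of a large part gives the data -/
theorem data_of_cover {Γ : Type*} [AddCommGroup Γ] [DecidableEq Γ] {M : ℝ} {A A' : Finset Γ}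
    (hA' : A'.Nonempty) (hsub : A' ⊆ A) (hM : 1 ≤ M) (hbig : (A.card : ℝ) ≤ M * A'.card)
    {d : ℕ} {B : Set (Fin d → ℝ)} {ψ : (Fin d → ℤ) →+ Γ} {H : AddSubgroup Γ} {T : Finset Γ}
    (hdd : (4 : ℝ) ^ d ≤ M) (hB : Body B) (hH : Finite H)
    (hvol : ((lat B).ncard : ℝ) * Nat.card H ≤ M * A.card) (hT : (T.card : ℝ) ≤ M)
    (hcov : Cov B ψ H T A') :
    ∃ (X : Finset (Fin d → ℤ)) (g : Γ), Data (M ^ 2) A X ψ H g := by
  classical
  have hsym : Sym B := ⟨hB.1, hB.2.1, hB.2.2.2, hB.2.2.1.mono interior_subset⟩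
  have hfin : (lat B).Finite := lat_finite hB.2.1.isBounded
  have hMM : M ≤ M ^ 2 := by nlinarith
  obtain ⟨t, ht, ht2⟩ := pigeon T A A' hA' (fun t a => ∃ x ∈ hfin.toFinset, ∃ h ∈ H, a = t + ψ x + h)
    hsub (by
      intro a ha
      obtain ⟨t, ht, x, hx, h, hh, e⟩ := hcov a ha
      exact ⟨t, ht, x, (Set.Finite.mem_toFinset _).2 hx, h, hh, e⟩)
  refine ⟨hfin.toFinset, t, ⟨?_, hH, ?_, ?_, ?_, ?_⟩⟩
  · refine ⟨0, ?_⟩
    rw [Set.Finite.mem_toFinset]
    show re 0 ∈ B
    have : re (0 : Fin d → ℤ) = 0 := by funext i; simp [re]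
    rw [this]
    exact hsym.zero
  · have h1 : (hfin.toFinset + hfin.toFinset).card ≤ num B 2 := by
      rw [num, Set.ncard_eq_toFinset_card _ (hsym.finite 2)]
      refine Finset.card_le_card ?_
      intro x hx
      obtain ⟨a, ha, b, hb, rfl⟩ := Finset.mem_add.1 hx
      rw [Set.Finite.mem_toFinset] at ha hb ⊢
      have ha' : a ∈ lat ((1 : ℝ) • B) := by rw [one_smul]; exact ha
      have hb' : b ∈ lat ((1 : ℝ) • B) := by rw [one_smul]; exact hb
      have h2 := hsym.add (by norm_num) (by norm_num) ha' hb'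
      norm_num at h2
      exact h2
    have h2 : num B 2 ≤ 4 ^ d * hfin.toFinset.card := by
      have h3 := num_double hsym (t := 1) (by norm_num)
      rw [mul_one] at h3
      have h4 : num B 1 = hfin.toFinset.card := by
        rw [num, one_smul]
        exact Set.ncard_eq_toFinset_card _ hfin
      rwa [h4] at h3
    calc ((hfin.toFinset + hfin.toFinset).card : ℝ) ≤ ((4 ^ d * hfin.toFinset.card : ℕ) : ℝ) := by
          exact_mod_cast h1.trans h2
      _ = (4 : ℝ) ^ d * hfin.toFinset.card := by push_cast; rfl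
      _ ≤ _ := mul_le_mul_of_nonneg_right (hdd.trans hMM) (Nat.cast_nonneg _)
  · have h1 : hull hfin.toFinset ⊆ (hfin.toFinset : Set (Fin d → ℤ)) := by
      intro v hv
      rw [Finset.mem_coe, Set.Finite.mem_toFinset]
      refine convexHull_min ?_ hsym.conv hv
      rintro _ ⟨x, hx, rfl⟩
      rw [Finset.mem_coe, Set.Finite.mem_toFinset] at hx
      exact hx
    have h2 := Set.ncard_le_ncard h1 (Finset.finite_toSet _)
    rw [Set.ncard_coe_finset] at h2
    calc ((hull hfin.toFinset).ncard : ℝ) ≤ 1 * hfin.toFinset.card := by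
          rw [one_mul]; exact_mod_cast h2
      _ ≤ _ := mul_le_mul_of_nonneg_right (hM.trans hMM) (Nat.cast_nonneg _)
  · have h1 : (hfin.toFinset.card : ℝ) * Nat.card H ≤ M * A.card := by
      rw [Set.ncard_eq_toFinset_card _ hfin] at hvol
      exact hvol
    exact h1.trans (mul_le_mul_of_nonneg_right hMM (Nat.cast_nonneg _))
  · have h1 : {a : Γ | a ∈ A ∧ ∃ x ∈ hfin.toFinset, ∃ h ∈ H, a = t + ψ x + h} =
        ((A.filter (fun a => ∃ x ∈ hfin.toFinset, ∃ h ∈ H, a = t + ψ x + h) : Finset Γ) : Set Γ) := by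
      rw [Finset.coe_filter]
    rw [h1, Set.ncard_coe_finset]
    calc (A.card : ℝ) ≤ M * A'.card := hbig
      _ ≤ M * (T.card *
          (A.filter (fun a => ∃ x ∈ hfin.toFinset, ∃ h ∈ H, a = t + ψ x + h)).card) := by
          refine mul_le_mul_of_nonneg_left ?_ (by linarith)
          exact_mod_cast ht2
      _ ≤ M * (M * (A.filter (fun a => ∃ x ∈ hfin.toFinset, ∃ h ∈ H, a = t + ψ x + h)).card) := by
          refine mul_le_mul_of_nonneg_left ?_ (by linarith)
          exact mul_le_mul_of_nonneg_right hT (Nat.cast_nonneg _)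
      _ = _ := by ring

end Pool.Agent.X164.RD
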