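import Pool.Agent.Y806.DF.B
import Pool.Agent.H112R2.Auer
set_option autoImplicit false

/-! Bounded relations between the integer points of a symmetric convex set. -/

namespace Pool.Agent.X164.RD

open Finset
open scoped Pointwise
open Pool.Agent.Y806.DF

theorem digits {r : ℕ} {L M : ℕ} (h : M < L) : ∀ (x : Fin r → ℤ), (∀ i, |x i| ≤ M) →
    ∑ i, x i * (L : ℤ) ^ (i : ℕ) = 0 → x = 0 := by
  induction r with
  | zero =>
    intro x _ _
    funext i
    exact i.elim0
  | succ r ih =>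
    intro x hx h0
    rw [Fin.sum_univ_succ] at h0
    have hL : (0 : ℤ) < L := by exact_mod_cast (by omega : 0 < L)
    have h1 : ∑ i : Fin r, x i.succ * (L : ℤ) ^ ((i.succ : Fin (r + 1)) : ℕ) =
        L * ∑ i : Fin r, x i.succ * (L : ℤ) ^ (i : ℕ) := by
      rw [Finset.mul_sum]
      refine Finset.sum_congr rfl fun i _ => ?_
      rw [Fin.val_succ, pow_succ]
      ring
    rw [h1] at h0
    simp only [Fin.val_zero, pow_zero, mul_one] at h0
    have h2 : x 0 = 0 := by
      refine Int.eq_zero_of_abs_lt_dvd (m := L) ?_ ?_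
      · exact ⟨-∑ i : Fin r, x i.succ * (L : ℤ) ^ (i : ℕ), by linarith⟩
      · have := hx 0
        have h3 : (M : ℤ) < L := by exact_mod_cast h
        linarith
    rw [h2, zero_add] at h0
    have h3 : ∑ i : Fin r, x i.succ * (L : ℤ) ^ (i : ℕ) = 0 := by
      rcases mul_eq_zero.1 h0 with h4 | h4
      · omega
      · exact h4
    have h4 := ih (fun i => x i.succ) (fun i => hx i.succ) h3
    funext i
    refine Fin.cases h2 (fun j => ?_) i
    exact congrFun h4 j

theorem conv_sum {V : Type*} [AddCommGroup V] [Module ℝ V] {B : Set V} (hB : Convex ℝ B)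
    (h0 : (0 : V) ∈ B) (hs : ∀ x ∈ B, -x ∈ B) {k : ℕ} (v : Fin k → V) (hv : ∀ i, v i ∈ B)
    (δ : Fin k → ℝ) (hδ : ∑ i, |δ i| ≤ 1) : ∑ i, δ i • v i ∈ B := by
  classical
  have h1 : ∑ o : Option (Fin k), (Option.elim o (1 - ∑ i, |δ i|) (fun i => |δ i|)) •
      (Option.elim o (0 : V) (fun i => if 0 ≤ δ i then v i else -v i)) ∈ B := by
    refine hB.sum_mem ?_ ?_ ?_
    · intro o _
      cases o with
      | none => simpa using hδ
      | some i => exact abs_nonneg _
    · rw [Fintype.sum_option]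
      simp
    · intro o _
      cases o with
      | none => exact h0
      | some i =>
        change (if 0 ≤ δ i then v i else -v i) ∈ B
        split_ifs
        · exact hv i
        · exact hs _ (hv i)
  rw [Fintype.sum_option] at h1
  have h2 : ∑ i, δ i • v i = (Option.elim none (1 - ∑ i, |δ i|) (fun i => |δ i|)) •
      (Option.elim none (0 : V) (fun i => if 0 ≤ δ i then v i else -v i)) +
      ∑ i : Fin k, (Option.elim (some i) (1 - ∑ i, |δ i|) (fun i => |δ i|)) •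
      (Option.elim (some i) (0 : V) (fun i => if 0 ≤ δ i then v i else -v i)) := by
    simp only [Option.elim, smul_zero, zero_add]
    refine Finset.sum_congr rfl fun i _ => ?_
    split_ifs with h
    · rw [abs_of_nonneg h]
    · rw [abs_of_neg (not_le.1 h), smul_neg, neg_smul, neg_neg]
  rw [h2]
  exact h1

theorem re_zsmul {d : ℕ} (n : ℤ) (z : Fin d → ℤ) : re (n • z) = (n : ℝ) • re z := by
  funext i
  simp [re]

theorem re_sum {d : ℕ} {ι : Type*} (s : Finset ι) (f : ι → (Fin d → ℤ)) :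
    re (∑ i ∈ s, f i) = ∑ i ∈ s, re (f i) := by
  funext i
  simp [re, Finset.sum_apply]

theorem re_inj {d : ℕ} {x y : Fin d → ℤ} (h : re x = re y) : x = y := by
  funext i
  have := congrFun h i
  simp only [re] at this
  exact_mod_cast this

/-- relations with bounded coefficients -/
theorem rel {d : ℕ} (Y : Finset (Fin d → ℤ)) (hs : ∀ y ∈ Y, -y ∈ Y) (h0 : (0 : Fin d → ℤ) ∈ Y)
    {a : ℕ} (ha : (lat (convexHull ℝ (re '' (Y : Set (Fin d → ℤ))))).ncard ≤ a) :
    ∃ (k : ℕ) (y : Fin k → (Fin d → ℤ)), k ≤ d ∧ (∀ i, y i ∈ Y) ∧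
      LinearIndependent ℝ (fun i => re (y i)) ∧
      ∀ z ∈ Y, ∃ (D : ℕ) (n : Fin k → ℤ), 1 ≤ D ∧ D ≤ (d + 1) ^ d * (a + 1) ∧
        (∀ i, |n i| ≤ D) ∧ (D : ℤ) • z = ∑ i, n i • y i := by
  classical
  set B := convexHull ℝ (re '' (Y : Set (Fin d → ℤ))) with hB
  have hYfin : (re '' (Y : Set (Fin d → ℤ))).Finite := (Finset.finite_toSet Y).image re
  have hBfin : (lat B).Finite := lat_finite (hYfin.isCompact_convexHull ℝ).isBounded
  obtain ⟨k, v, hli, hvY, hv⟩ := H112.exists_auer _ hYfin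
  choose y hyY hyv using hvY
  have hyv' : (fun i => re (y i)) = v := funext hyv
  have hkd : k ≤ d := by
    have := hli.fintype_card_le_finrank
    simpa using this
  refine ⟨k, y, hkd, fun i => Finset.mem_coe.1 (hyY i), by rw [hyv']; exact hli, ?_⟩
  intro z hz
  obtain ⟨c, hc1, hc2⟩ := hv (re z) ⟨z, Finset.mem_coe.2 hz, rfl⟩
  obtain ⟨J, hJ⟩ : ∃ J, J = (d + 1) ^ d * (a + 1) := ⟨_, rfl⟩
  -- the boxes
  let f : ℕ → (Fin k → ℕ) := fun j i => ⌊(k : ℝ) * Int.fract ((j : ℝ) * c i)⌋₊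
  have hkpos : ∀ i : Fin k, 0 < k := fun i => lt_of_le_of_lt (Nat.zero_le _) i.2
  have hmaps : ∀ j ∈ Finset.range (J + 1), f j ∈ Fintype.piFinset (fun _ : Fin k => Finset.range k) := by
    intro j _
    rw [Fintype.mem_piFinset]
    intro i
    rw [Finset.mem_range, Nat.floor_lt (mul_nonneg (Nat.cast_nonneg _) (Int.fract_nonneg _))]
    have h1 : Int.fract ((j : ℝ) * c i) < 1 := Int.fract_lt_one _
    have h2 : (0 : ℝ) < k := by exact_mod_cast hkpos i
    calc (k : ℝ) * Int.fract ((j : ℝ) * c i) < k * 1 := mul_lt_mul_of_pos_left h1 h2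
      _ = k := mul_one _
  have hcardt : (Fintype.piFinset (fun _ : Fin k => Finset.range k)).card * (a + 1) <
      (Finset.range (J + 1)).card := by
    rw [Fintype.card_piFinset, Finset.card_range, Finset.prod_const, Finset.card_univ,
      Fintype.card_fin, Finset.card_range, hJ]
    have h1 : k ^ k ≤ (d + 1) ^ d := by
      calc k ^ k ≤ (d + 1) ^ k := Nat.pow_le_pow_left (by omega) _
        _ ≤ (d + 1) ^ d := Nat.pow_le_pow_right (by omega) hkd
    have h2 := Nat.mul_le_mul_right (a + 1) h1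
    omega
  obtain ⟨b, -, hb⟩ := Finset.exists_lt_card_fiber_of_mul_lt_card_of_maps_to hmaps hcardt
  set F := (Finset.range (J + 1)).filter (fun j => f j = b) with hF
  have hFne : F.Nonempty := Finset.card_pos.1 (by omega)
  obtain ⟨j₀, hj₀⟩ := hFne
  let w : ℕ → (Fin d → ℤ) := fun j => (j : ℤ) • z - (j₀ : ℤ) • z -
    ∑ i, (⌊(j : ℝ) * c i⌋ - ⌊(j₀ : ℝ) * c i⌋) • y i
  have hrew : ∀ j, re (w j) = ∑ i, (Int.fract ((j : ℝ) * c i) - Int.fract ((j₀ : ℝ) * c i)) • v i := by
    intro j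
    simp only [w]
    rw [re_sub, re_sub, re_zsmul, re_zsmul, re_sum, hc2, Finset.smul_sum, Finset.smul_sum,
      ← Finset.sum_sub_distrib, ← Finset.sum_sub_distrib]
    refine Finset.sum_congr rfl fun i _ => ?_
    rw [re_zsmul, hyv, smul_smul, smul_smul, ← sub_smul, ← sub_smul]
    congr 1
    rw [Int.fract, Int.fract]
    push_cast
    ring
  have hmapsw : ∀ j ∈ F, w j ∈ hBfin.toFinset := by
    intro j hj
    rw [Set.Finite.mem_toFinset]
    change re (w j) ∈ B
    rw [hrew]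
    have hsymB : ∀ x ∈ B, -x ∈ B := by
      intro x hx
      have h1 : -(re '' (Y : Set (Fin d → ℤ))) = re '' (Y : Set (Fin d → ℤ)) := by
        ext u
        rw [Set.mem_neg]
        constructor
        · rintro ⟨q, hq, hqu⟩
          exact ⟨-q, Finset.mem_coe.2 (hs q (Finset.mem_coe.1 hq)), by rw [re_neg, hqu, neg_neg]⟩
        · rintro ⟨q, hq, rfl⟩
          exact ⟨-q, Finset.mem_coe.2 (hs q (Finset.mem_coe.1 hq)), by rw [re_neg]⟩
      have h2 : -B = B := by rw [hB, ← convexHull_neg, h1]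
      rw [← h2, Set.mem_neg, neg_neg]
      exact hx
    have h0B : (0 : Fin d → ℝ) ∈ B := by
      have h1 : re (0 : Fin d → ℤ) = 0 := by funext i; simp [re]
      rw [← h1]
      exact subset_convexHull ℝ _ ⟨0, Finset.mem_coe.2 h0, rfl⟩
    refine conv_sum (convex_convexHull ℝ _) h0B hsymB v (fun i => ?_) _ ?_
    · rw [← hyv]
      exact subset_convexHull ℝ _ ⟨y i, hyY i, rfl⟩
    · rcases Nat.eq_zero_or_pos k with hk0 | hkpos'
      · subst hk0
        simp
      · have hk0 : (0 : ℝ) < k := by exact_mod_cast hkpos'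
        have h1 : ∀ i, |Int.fract ((j : ℝ) * c i) - Int.fract ((j₀ : ℝ) * c i)| ≤ 1 / k := by
          intro i
          have e1 := congrFun (Finset.mem_filter.1 hj).2 i
          have e2 := congrFun (Finset.mem_filter.1 hj₀).2 i
          simp only [f] at e1 e2
          have p1 : (0 : ℝ) ≤ (k : ℝ) * Int.fract ((j : ℝ) * c i) :=
            mul_nonneg hk0.le (Int.fract_nonneg _)
          have p2 : (0 : ℝ) ≤ (k : ℝ) * Int.fract ((j₀ : ℝ) * c i) :=
            mul_nonneg hk0.le (Int.fract_nonneg _)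
          have q1 := Nat.floor_le p1
          have q2 := Nat.floor_le p2
          have q3 := Nat.lt_floor_add_one ((k : ℝ) * Int.fract ((j : ℝ) * c i))
          have q4 := Nat.lt_floor_add_one ((k : ℝ) * Int.fract ((j₀ : ℝ) * c i))
          rw [e1] at q1 q3
          rw [e2] at q2 q4
          rw [le_div_iff₀ hk0, ← abs_of_pos hk0, ← abs_mul, abs_le]
          constructor
          · linarith
          · linarith
        calc ∑ i, |Int.fract ((j : ℝ) * c i) - Int.fract ((j₀ : ℝ) * c i)|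
            ≤ ∑ _i : Fin k, (1 / (k : ℝ)) := Finset.sum_le_sum fun i _ => h1 i
          _ = 1 := by
            rw [Finset.sum_const, Finset.card_univ, Fintype.card_fin, nsmul_eq_mul]
            field_simp
  have hlt : hBfin.toFinset.card < F.card := by
    rw [← Set.ncard_eq_toFinset_card _ hBfin]
    omega
  obtain ⟨j, hj, j', hj', hne, hww⟩ :=
    Finset.exists_ne_map_eq_of_card_lt_of_maps_to hlt hmapsw
  -- the relation
  have hmain : ∀ j ∈ F, ∀ j' ∈ F, j' < j → w j = w j' →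
      ∃ (D : ℕ) (n : Fin k → ℤ), 1 ≤ D ∧ D ≤ J ∧ (∀ i, |n i| ≤ D) ∧ (D : ℤ) • z = ∑ i, n i • y i := by
    intro j hj j' hj' hlt hww
    have hjJ : j ≤ J := by
      have := Finset.mem_range.1 (Finset.mem_filter.1 hj).1
      omega
    have hrel : ((j - j' : ℕ) : ℤ) • z = ∑ i, (⌊(j : ℝ) * c i⌋ - ⌊(j' : ℝ) * c i⌋) • y i := by
      have e1 : ((j - j' : ℕ) : ℤ) = (j : ℤ) - j' := by
        push_cast [Nat.cast_sub hlt.le]
        ring
      have e2 : ∑ i, (⌊(j : ℝ) * c i⌋ - ⌊(j₀ : ℝ) * c i⌋) • y i -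
          ∑ i, (⌊(j' : ℝ) * c i⌋ - ⌊(j₀ : ℝ) * c i⌋) • y i =
          ∑ i, (⌊(j : ℝ) * c i⌋ - ⌊(j' : ℝ) * c i⌋) • y i := by
        rw [← Finset.sum_sub_distrib]
        refine Finset.sum_congr rfl fun i _ => ?_
        rw [← sub_smul]
        congr 1
        ring
      simp only [w] at hww
      rw [e1, sub_smul, ← e2]
      have e3 : (j : ℤ) • z - (j₀ : ℤ) • z - ((j' : ℤ) • z - (j₀ : ℤ) • z) =
          ∑ i, (⌊(j : ℝ) * c i⌋ - ⌊(j₀ : ℝ) * c i⌋) • y i -
          ∑ i, (⌊(j' : ℝ) * c i⌋ - ⌊(j₀ : ℝ) * c i⌋) • y i := by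
        rw [sub_eq_sub_iff_sub_eq_sub] at hww
        rw [sub_eq_sub_iff_add_eq_add] at hww ⊢
        rw [add_comm (∑ i, (⌊(j : ℝ) * c i⌋ - ⌊(j₀ : ℝ) * c i⌋) • y i)]
        have h9 := hww
        abel_nf at h9 ⊢
        exact h9
      rw [← e3]
      abel
    refine ⟨j - j', _, by omega, by omega, ?_, hrel⟩
    have h5 : ∀ i, ((⌊(j : ℝ) * c i⌋ - ⌊(j' : ℝ) * c i⌋ : ℤ) : ℝ) = ((j - j' : ℕ) : ℝ) * c i := by
      have h6 : ∑ i, (((⌊(j : ℝ) * c i⌋ - ⌊(j' : ℝ) * c i⌋ : ℤ) : ℝ) - ((j - j' : ℕ) : ℝ) * c i) •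
          v i = 0 := by
        have h7 := congrArg re hrel
        rw [re_zsmul, hc2, re_sum, Finset.smul_sum] at h7
        have h8 : ∀ i, (((⌊(j : ℝ) * c i⌋ - ⌊(j' : ℝ) * c i⌋ : ℤ) : ℝ) -
            ((j - j' : ℕ) : ℝ) * c i) • v i =
            re ((⌊(j : ℝ) * c i⌋ - ⌊(j' : ℝ) * c i⌋) • y i) -
            (((j - j' : ℕ) : ℤ) : ℝ) • c i • v i := by
          intro i
          rw [re_zsmul, hyv, sub_smul, smul_smul]
          push_cast
          rfl
        rw [Finset.sum_congr rfl fun i _ => h8 i, Finset.sum_sub_distrib, ← h7, sub_self]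
      intro i
      have := Fintype.linearIndependent_iff.1 hli _ h6 i
      linarith
    intro i
    have h6 : |((⌊(j : ℝ) * c i⌋ - ⌊(j' : ℝ) * c i⌋ : ℤ) : ℝ)| ≤ ((j - j' : ℕ) : ℝ) := by
      rw [h5, abs_mul, abs_of_nonneg (Nat.cast_nonneg _)]
      calc ((j - j' : ℕ) : ℝ) * |c i| ≤ ((j - j' : ℕ) : ℝ) * 1 :=
            mul_le_mul_of_nonneg_left (hc1 i) (Nat.cast_nonneg _)
        _ = _ := mul_one _
    have h7 : ((|⌊(j : ℝ) * c i⌋ - ⌊(j' : ℝ) * c i⌋| : ℤ) : ℝ) ≤ (((j - j' : ℕ) : ℤ) : ℝ) := by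
      rw [Int.cast_abs]
      exact_mod_cast h6
    exact_mod_cast h7
  rw [← hJ]
  rcases Nat.lt_or_gt_of_ne hne with h | h
  · exact hmain j' hj' j hj h hww.symm
  · exact hmain j hj j' hj' h hww

end Pool.Agent.X164.RD
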