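import Pool.Agent.X164.RD.NoOdd
set_option autoImplicit false
set_option linter.unusedSectionVars false
set_option exponentiation.threshold 100000

/-! Transfer from the quotient by a direct summand of exponent `m`. -/

namespace Pool.Agent.X164.RD

open Finset
open scoped Pointwise
open Pool.Agent.Y806.DF Pool.Agent.X164.MG

section transfer

variable {Γ Φ : Type*} [AddCommGroup Γ] [DecidableEq Γ] [AddCommGroup Φ] [DecidableEq Φ] {m : ℕ}
  {π : Γ →+ Φ} {ψ : Φ →+ Γ}

/-- the projection to the kernel -/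
def proj (hψ : ∀ x, π (ψ x) = x) : Γ →+ π.ker :=
  (AddMonoidHom.id Γ - ψ.comp π).codRestrict π.ker (fun x => by
    change π (x - ψ (π x)) = 0
    rw [map_sub, hψ, sub_self])

theorem proj_coe (hψ : ∀ x, π (ψ x) = x) (x : Γ) : ((proj hψ x : π.ker) : Γ) = x - ψ (π x) := rfl

theorem proj_inj (hψ : ∀ x, π (ψ x) = x) (x : Γ) (h1 : π x = 0) (h2 : proj hψ x = 0) : x = 0 := by
  have h3 := congrArg (fun y : π.ker => (y : Γ)) h2
  simp only [proj_coe, h1, map_zero, sub_zero] at h3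
  exact h3

/-- **Transfer.** -/
theorem transfer (hm : 0 < m) (hΦ : ∀ x y : Φ, m • x = m • y → x = y) (hψ : ∀ x, π (ψ x) = x) (hker : ∀ x, π x = 0 → m • x = 0)
    {A : Finset Γ} {K K₁ : ℝ} (hA : A.Nonempty) (hK : ((A + A).card : ℝ) ≤ K * A.card)
    (hK₁ : 1 ≤ K₁) {d : ℕ} {X : Finset (Fin d → ℤ)} {ψ₀ : (Fin d → ℤ) →+ Φ}
    {H₀ : AddSubgroup Φ} {g₀ : Φ} (hD : Data K₁ (pop π A) X ψ₀ H₀ g₀) :
    ∃ (H : AddSubgroup Γ) (g : Γ),
      Data (4 * K₁ * K ^ (m + 1) * (2 * K ^ (m + 2)) ^ (41005 * (Nat.log 2 m + 1))) A X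
        (ψ.comp ψ₀) H g := by
  classical
  have hK1 := one_le hA hK
  have hK0 : 0 < K := by linarith
  have hF : ∀ y : π.ker, m • y = 0 := fun y => Subtype.ext (by
    rw [AddSubgroup.coe_nsmul, AddSubgroup.coe_zero]
    exact hker y y.2)
  have hinj : ∀ x, π x = 0 → proj hψ x = 0 → x = 0 := proj_inj hψ
  have hApos : (0 : ℝ) < A.card := by exact_mod_cast hA.card_pos
  have hBpos : (0 : ℝ) < (A.image π).card := by exact_mod_cast (hA.image π).card_pos
  have hE2 := sumset_snd π (proj hψ) hF hΦ hinj hA hK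
  have hprod := prod_le π (proj hψ) hF hΦ hA hK
  have hpop := pop_big π (proj hψ) hF hΦ hinj hA hK
  obtain ⟨H', T, hfin, hcard, hT, hcov⟩ := Pool.Agent.TH404.Tor.upper m hm hF
    (K ^ (m + 2)) (A.image (proj hψ)) (hA.image _) hE2
  set M : ℝ := (2 * K ^ (m + 2)) ^ (41005 * (Nat.log 2 m + 1)) with hM
  have hKm : (1 : ℝ) ≤ K ^ (m + 1) := one_le_pow₀ hK1
  have hKm2 : (1 : ℝ) ≤ K ^ (m + 2) := one_le_pow₀ hK1
  have hM1 : 1 ≤ M := one_le_pow₀ (by linarith)
  -- the part of `A` over the progression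
  set B₁ : Finset Φ := (pop π A).filter
    (fun b => ∃ x ∈ X, ∃ h ∈ H₀, b = g₀ + ψ₀ x + h) with hB₁
  have hmeet : ((pop π A).card : ℝ) ≤ K₁ * B₁.card := by
    have h1 := hD.meet
    have h2 : {a : Φ | a ∈ pop π A ∧ ∃ x ∈ X, ∃ h ∈ H₀, a = g₀ + ψ₀ x + h} =
        (B₁ : Set Φ) := by
      ext a
      rw [hB₁, Finset.coe_filter]
    rw [h2, Set.ncard_coe_finset] at h1
    exact h1
  set A₁ : Finset Γ := A.filter (fun a => π a ∈ B₁) with hA₁
  have hA₁big : (A.card : ℝ) ≤ 4 * K₁ * K ^ (m + 1) * A₁.card := by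
    have h1 : A₁.card = ∑ b ∈ B₁, (A.filter (fun a => π a = b)).card := by
      rw [Finset.card_eq_sum_card_fiberwise (f := π) (s := A₁) (t := B₁)
        (fun a ha => (Finset.mem_filter.1 (Finset.mem_coe.1 ha)).2)]
      refine Finset.sum_congr rfl fun b hb => ?_
      congr 1
      ext a
      simp only [hA₁, Finset.mem_filter]
      constructor
      · rintro ⟨⟨h3, _⟩, h4⟩
        exact ⟨h3, h4⟩
      · rintro ⟨h3, h4⟩
        exact ⟨⟨h3, by rw [h4]; exact hb⟩, h4⟩
    have h2 : B₁.card * A.card ≤ 2 * (A.image π).card * A₁.card := by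
      rw [h1, Finset.mul_sum, ← smul_eq_mul, ← Finset.sum_const]
      refine Finset.sum_le_sum fun b hb => ?_
      exact (Finset.mem_filter.1 (Finset.mem_filter.1 hb).1).2
    have h2' : (B₁.card : ℝ) * A.card ≤ 2 * (A.image π).card * A₁.card := by exact_mod_cast h2
    have h3 : ((A.image π).card : ℝ) ≤ 2 * K ^ (m + 1) * K₁ * B₁.card := by
      calc ((A.image π).card : ℝ) ≤ 2 * K ^ (m + 1) * (pop π A).card := hpop
        _ ≤ 2 * K ^ (m + 1) * (K₁ * B₁.card) := mul_le_mul_of_nonneg_left hmeet (by positivity)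
        _ = _ := by ring
    have h4 : ((A.image π).card : ℝ) * A.card ≤
        (A.image π).card * (4 * K₁ * K ^ (m + 1) * A₁.card) := by
      calc ((A.image π).card : ℝ) * A.card ≤ (2 * K ^ (m + 1) * K₁ * B₁.card) * A.card :=
            mul_le_mul_of_nonneg_right h3 hApos.le
        _ = (2 * K ^ (m + 1) * K₁) * (B₁.card * A.card) := by ring
        _ ≤ (2 * K ^ (m + 1) * K₁) * (2 * (A.image π).card * A₁.card) :=
            mul_le_mul_of_nonneg_left h2' (by positivity)
        _ = _ := by ring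
    exact le_of_mul_le_mul_left h4 hBpos
  have hA₁ne : A₁.Nonempty := by
    rw [← Finset.card_pos]
    by_contra hcon
    have h0 : A₁.card = 0 := by omega
    rw [h0] at hA₁big
    simp at hA₁big
    rw [hA₁big] at hA
    exact Finset.not_nonempty_empty hA
  -- a popular coset
  obtain ⟨t, ht, ht2⟩ := pigeon T A₁ A₁ hA₁ne (fun t a => proj hψ a - t ∈ H') subset_rfl (by
    intro a ha
    exact hcov _ (Finset.mem_image_of_mem _ (Finset.mem_filter.1 ha).1))
  set A₂ := A₁.filter (fun a => proj hψ a - t ∈ H') with hA₂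
  have hA₂big : (A.card : ℝ) ≤ 4 * K₁ * K ^ (m + 1) * M * A₂.card := by
    have h1 : (A₁.card : ℝ) ≤ T.card * A₂.card := by exact_mod_cast ht2
    calc (A.card : ℝ) ≤ 4 * K₁ * K ^ (m + 1) * A₁.card := hA₁big
      _ ≤ 4 * K₁ * K ^ (m + 1) * (T.card * A₂.card) :=
          mul_le_mul_of_nonneg_left h1 (by positivity)
      _ ≤ 4 * K₁ * K ^ (m + 1) * (M * A₂.card) := by
          refine mul_le_mul_of_nonneg_left ?_ (by positivity)
          exact mul_le_mul_of_nonneg_right hT (Nat.cast_nonneg _)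
      _ = _ := by ring
  have hH₀fin := hD.fin
  set θ : H₀ × H' →+ Γ := (ψ.comp H₀.subtype).coprod (π.ker.subtype.comp H'.subtype) with hθ
  have hθa : ∀ z : H₀ × H', θ z = ψ z.1 + ((z.2 : π.ker) : Γ) := fun z => rfl
  have hcardH : Nat.card θ.range ≤ Nat.card H₀ * Nat.card H' := by
    rw [← Nat.card_prod]
    exact Nat.card_le_card_of_surjective _ θ.rangeRestrict_surjective
  have hfinH : Finite θ.range := Finite.of_surjective _ θ.rangeRestrict_surjective
  have hbase : K₁ ≤ 4 * K₁ * K ^ (m + 1) * M := by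
    calc K₁ = K₁ * 1 * 1 := by ring
      _ ≤ (4 * K₁) * K ^ (m + 1) * M := by
        refine mul_le_mul (mul_le_mul (by linarith) hKm zero_le_one (by linarith)) hM1
          zero_le_one (by positivity)
  refine ⟨θ.range, ψ g₀ + t, ⟨hD.ne, hfinH, ?_, ?_, ?_, ?_⟩⟩
  · exact hD.doubling.trans (mul_le_mul_of_nonneg_right hbase (Nat.cast_nonneg _))
  · exact hD.dense.trans (mul_le_mul_of_nonneg_right hbase (Nat.cast_nonneg _))
  · have h2 : (X.card : ℝ) * Nat.card H₀ ≤ K₁ * (A.image π).card := by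
      refine hD.size.trans (mul_le_mul_of_nonneg_left ?_ (by linarith))
      exact_mod_cast Finset.card_le_card (Finset.filter_subset _ _)
    have h3 : (Nat.card H' : ℝ) ≤ (A.image (proj hψ)).card := by exact_mod_cast hcard
    calc (X.card : ℝ) * Nat.card θ.range ≤ X.card * (Nat.card H₀ * Nat.card H') := by
          exact_mod_cast Nat.mul_le_mul_left _ hcardH
      _ = (X.card * Nat.card H₀) * Nat.card H' := by ring
      _ ≤ (K₁ * (A.image π).card) * (A.image (proj hψ)).card :=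
          mul_le_mul h2 h3 (Nat.cast_nonneg _) (by positivity)
      _ = K₁ * ((A.image π).card * (A.image (proj hψ)).card) := by ring
      _ ≤ K₁ * (K ^ (m + 1) * A.card) := mul_le_mul_of_nonneg_left hprod (by linarith)
      _ = (K₁ * K ^ (m + 1)) * 1 * A.card := by ring
      _ ≤ (4 * K₁ * K ^ (m + 1)) * M * A.card := by
          refine mul_le_mul_of_nonneg_right ?_ hApos.le
          refine mul_le_mul ?_ hM1 zero_le_one (by positivity)
          refine mul_le_mul_of_nonneg_right (by linarith) (by positivity)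
  · refine hA₂big.trans (mul_le_mul_of_nonneg_left ?_ (by positivity))
    have hsub : (A₂ : Set Γ) ⊆ {a : Γ | a ∈ A ∧ ∃ x ∈ X, ∃ h ∈ θ.range,
        a = (ψ g₀ + t) + (ψ.comp ψ₀) x + h} := by
      intro a ha
      obtain ⟨h1, h2⟩ := Finset.mem_filter.1 (Finset.mem_coe.1 ha)
      obtain ⟨h3, h4⟩ := Finset.mem_filter.1 h1
      obtain ⟨h5, x, hx, h, hh, e⟩ := Finset.mem_filter.1 h4
      refine ⟨h3, x, hx, _, ⟨(⟨h, hh⟩, ⟨_, h2⟩), rfl⟩, ?_⟩
      rw [hθa]
      change a = (ψ g₀ + t) + ψ (ψ₀ x) + (ψ h + ((proj hψ a - t : π.ker) : Γ))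
      rw [AddSubgroup.coe_sub, proj_coe, e, map_add, map_add]
      abel
    have hfinS : {a : Γ | a ∈ A ∧ ∃ x ∈ X, ∃ h ∈ θ.range,
        a = (ψ g₀ + t) + (ψ.comp ψ₀) x + h}.Finite :=
      (Finset.finite_toSet A).subset (fun a ha => ha.1)
    have h6 := Set.ncard_le_ncard hsub hfinS
    rw [Set.ncard_coe_finset] at h6
    exact_mod_cast h6

end transfer

end Pool.Agent.X164.RD
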